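import Pool.Agent.H193R5.EG.Stmts
import Pool.Agent.H88R2.DC.Fix
import Pool.Agent.H88R2.DC.Inst
import Pool.Agent.H88R2.DC.TLAT
import Pool.Agent.H88R2.DC.TFLD
import Pool.Agent.H88R2.DC.TGRO

/-! # Chains of non-surjective endomorphisms, rank inequality -/

set_option autoImplicit false
set_option linter.unusedSectionVars false

open MvPolynomial Pool.Agent.H88R2.DC

namespace Pool.Agent.H193R5.EG

section
variable {K A : Type} [Field K] [CharZero K] [Ring A] [Algebra K A]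
  {sy : A ≃ₗ[K] MvPolynomial (Fin 2) K} {br : A →ₗ[K] A →ₗ[K] A} {x y : A}

/-- injective endomorphisms compatible with the bracket up to a constant -/
structure Endo (br : A →ₗ[K] A →ₗ[K] A) (φ : A →ₐ[K] A) : Prop where
  inj : Function.Injective φ
  comp : ∃ κ : K, κ ≠ 0 ∧ ∀ u v, br (φ u) (φ v) = κ • φ (br u v)

theorem Endo.mul {φ ψ : A →ₐ[K] A} (h : Endo br φ) (h' : Endo br ψ) : Endo br (φ.comp ψ) := by
  obtain ⟨κ, hκ, e⟩ := h.comp
  obtain ⟨κ', hκ', e'⟩ := h'.comp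
  refine ⟨h.inj.comp h'.inj, κ * κ', mul_ne_zero hκ hκ', fun u v => ?_⟩
  rw [AlgHom.comp_apply, AlgHom.comp_apply, e, e', map_smul, smul_smul, AlgHom.comp_apply]

/-- automorphisms preserving the bracket -/
def Aut (br : A →ₗ[K] A →ₗ[K] A) (σ : A ≃ₐ[K] A) : Prop := ∀ u v, br (σ u) (σ v) = σ (br u v)

theorem Aut.endo {σ : A ≃ₐ[K] A} (h : Aut br σ) : Endo br (σ : A →ₐ[K] A) :=
  ⟨σ.injective, 1, one_ne_zero, fun u v => by rw [one_smul]; exact h u v⟩

theorem Aut.symm {σ : A ≃ₐ[K] A} (h : Aut br σ) : Aut br σ.symm := by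
  intro u v
  apply σ.injective
  rw [← h, AlgEquiv.apply_symm_apply, AlgEquiv.apply_symm_apply, AlgEquiv.apply_symm_apply]

theorem Aut.trans {σ τ : A ≃ₐ[K] A} (h : Aut br σ) (h' : Aut br τ) : Aut br (σ.trans τ) := by
  intro u v
  rw [AlgEquiv.trans_apply, AlgEquiv.trans_apply, AlgEquiv.trans_apply, h', h]

theorem Aut.refl : Aut br (AlgEquiv.refl : A ≃ₐ[K] A) := fun _ _ => rfl

/-- `Φ` is a composition of `k` non-surjective endomorphisms (and one more endomorphism) -/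
inductive Chain (br : A →ₗ[K] A →ₗ[K] A) : ℕ → (A →ₐ[K] A) → Prop
  | zero (φ : A →ₐ[K] A) : Endo br φ → Chain br 0 φ
  | succ (k : ℕ) (Φ φ : A →ₐ[K] A) : Chain br k Φ → Endo br φ → ¬ Function.Surjective φ →
      Chain br (k + 1) (Φ.comp φ)

theorem Chain.endo {k : ℕ} {Φ : A →ₐ[K] A} (h : Chain br k Φ) : Endo br Φ := by
  induction h with
  | zero φ h => exact h
  | succ k Φ φ _ h1 _ ih => exact ih.mul h1

theorem Chain.auto {k : ℕ} {Φ : A →ₐ[K] A} (h : Chain br k Φ) (σ : A ≃ₐ[K] A) (hσ : Aut br σ) :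
    Chain br k (Φ.comp (σ : A →ₐ[K] A)) := by
  cases h with
  | zero φ h => exact Chain.zero _ (h.mul hσ.endo)
  | succ k Φ φ h h1 h2 =>
    rw [AlgHom.comp_assoc]
    refine Chain.succ k Φ _ h (h1.mul hσ.endo) fun hs => h2 fun b => ?_
    obtain ⟨a, ha⟩ := hs b
    exact ⟨σ a, ha⟩

/-- the hypothesis: birational endomorphisms are surjective -/
def Kel (br : A →ₗ[K] A →ₗ[K] A) : Prop :=
  ∀ φ : A →ₐ[K] A, Endo br φ → (∀ u : A, ∃ s c : A, s ≠ 0 ∧ φ s * u = φ c) →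
    Function.Surjective φ

theorem lind_two (hK : Kel br) (φ : A →ₐ[K] A) (h : Endo br φ) (hφ : ¬ Function.Surjective φ) :
    ∃ e : Fin 2 → A, LInd φ e := by
  have h1 : ¬ ∀ u : A, ∃ s c : A, s ≠ 0 ∧ φ s * u = φ c := fun hcon => hφ (hK φ h hcon)
  push Not at h1
  obtain ⟨u, hu⟩ := h1
  refine ⟨![1, u], fun c hc => ?_⟩
  rw [Fin.sum_univ_two] at hc
  simp only [Matrix.cons_val_zero, Matrix.cons_val_one, mul_one] at hc
  have hc1 : c 1 = 0 := by
    by_contra hne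
    refine hu (c 1) (-(c 0)) hne ?_
    rw [map_neg]
    exact (neg_eq_of_add_eq_zero_right hc).symm
  rw [hc1, map_zero, zero_mul, add_zero] at hc
  have hc0 : c 0 = 0 := h.inj (by rw [hc, map_zero])
  ext i
  fin_cases i
  · exact hc0
  · exact hc1

theorem Chain.lind (hK : Kel br) {k : ℕ} {Φ : A →ₐ[K] A} (h : Chain br k Φ) :
    ∃ e : Fin (2 ^ k) → A, LInd Φ e := by
  induction h with
  | zero φ h =>
    refine ⟨_, lind_equiv φ (finCongr (pow_zero 2)) (fun _ : Fin 1 => (1 : A)) ?_⟩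
    intro c hc
    ext i
    have h1 : φ (c 0) = 0 := by simpa using hc
    have hi : i = 0 := Subsingleton.elim _ _
    rw [hi]
    exact h.inj (by rw [h1, Pi.zero_apply, map_zero])
  | succ k Φ φ h1 h2 h3 ih =>
    obtain ⟨e, he⟩ := ih
    obtain ⟨e', he'⟩ := lind_two hK φ h2 h3
    have h4 := lind_comp Φ φ e e' he he'
    exact ⟨_, lind_equiv _ ((finCongr (pow_succ 2 k)).trans finProdFinEquiv.symm) _ h4⟩

/-- the rank inequality for an element with a non-torsion partner -/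
theorem Chain.rank (hsys : Sys sy br) (hK : Kel br) {k : ℕ} {Φ : A →ₐ[K] A} (h : Chain br k Φ)
    {a : A} (ha : NT br a) {N : ℕ} (hN : Φ a ∈ FilS sy (fun _ => 1) N) :
    2 ^ k ≤ N * (N - 2) := by
  obtain ⟨e, he⟩ := h.lind hK
  obtain ⟨u, hu⟩ := ha
  obtain ⟨κ, hκ, hc⟩ := h.endo.comp
  have := rank_ineq lat_holds fld_holds (gro_holds fld_holds) hsys Φ κ hκ hc a 1 one_pos _ hu
    (fun _ => 1) (by simp) N hN (2 ^ k) (by positivity) e he
  simpa using this

theorem nt_of_auto (σ : A ≃ₐ[K] A) (hσ : Aut br σ) (a : A) (h : NT br (σ a)) : NT br a := by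
  obtain ⟨u, hu⟩ := h
  refine ⟨σ.symm u, fun c hc => hu c ?_⟩
  have h1 := congrArg σ hc
  rw [map_zero, map_finsuppSum] at h1
  rw [← h1]
  refine Finsupp.sum_congr fun p _ => ?_
  rw [map_smul, map_mul, map_pow]
  congr 2
  have key : ∀ k : ℕ, σ ((br a)^[k] (σ.symm u)) = (br (σ a))^[k] u := by
    intro k
    induction k with
    | zero => simp
    | succ k ih => rw [Function.iterate_succ_apply', Function.iterate_succ_apply', ← ih, hσ]
  exact (key _).symm

theorem mem_fil {u : A} {w : Fin 2 → ℕ} {m : ℕ} :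
    u ∈ FilS sy w m ↔ ∀ d ∈ (sy u).support, d 0 * w 0 + d 1 * w 1 ≤ m := by
  show sy u ∈ MvPolynomial.restrictSupport K _ ↔ _
  rw [mem_restrictSupport_iff]
  rfl

theorem fil_mono' {u : A} {w : Fin 2 → ℕ} {m l : ℕ} (h : m ≤ l) (hu : u ∈ FilS sy w m) :
    u ∈ FilS sy w l := by
  rw [mem_fil] at hu ⊢
  exact fun d hd => (hu d hd).trans h

theorem weight_eq (w : Fin 2 → ℕ) (d : Fin 2 →₀ ℕ) :
    Finsupp.weight w d = d 0 * w 0 + d 1 * w 1 := by
  rw [Finsupp.weight_apply, Finsupp.sum_fintype _ _ (fun _ => by simp), Fin.sum_univ_two]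
  rfl

theorem top_zero_of_lt {u : A} {w : Fin 2 → ℕ} {m l : ℕ} (h : m < l) (hu : u ∈ FilS sy w m) :
    topS sy w l u = 0 := by
  rw [mem_fil] at hu
  ext d
  rw [topS, coeff_weightedHomogeneousComponent, coeff_zero]
  split_ifs with hd
  · by_contra hne
    have := hu d (mem_support_iff.2 hne)
    rw [weight_eq] at hd
    omega
  · rfl

end

end Pool.Agent.H193R5.EG
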