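import Pool.Agent.H193R5.EG.NFind

/-! # Degrees of images of elements in normal form -/

set_option autoImplicit false
set_option linter.unusedSectionVars false

open MvPolynomial Pool.Agent.H88R2.DC

namespace Pool.Agent.H193R5.EG

section
variable {K A : Type} [Field K] [CharZero K] [Ring A] [Algebra K A]
  {sy : A ≃ₗ[K] MvPolynomial (Fin 2) K} {br : A →ₗ[K] A →ₗ[K] A} {x y : A}

/-- `u` has degree `n ≥ 1` -/
def HasD (sy : A ≃ₗ[K] MvPolynomial (Fin 2) K) (u : A) (n : ℕ) : Prop :=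
  1 ≤ n ∧ (∀ d ∈ (sy u).support, d 0 + d 1 ≤ n) ∧ homogeneousComponent n (sy u) ≠ 0

theorem HasD.mem {u : A} {n : ℕ} (h : HasD sy u n) : u ∈ FilS sy (fun _ => 1) n :=
  mem_fil.2 (by simpa using h.2.1)

theorem le_of_top {u : A} {m N : ℕ} (h : topS sy (fun _ => 1) m u ≠ 0)
    (hN : u ∈ FilS sy (fun _ => 1) N) : m ≤ N := by
  by_contra hlt
  push Not at hlt
  exact h (top_zero_of_lt hlt hN)

theorem sym_aeval (S : Std sy br x y) (p : Polynomial K) :
    sy (Polynomial.aeval x p) =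
      ∑ i ∈ Finset.range (p.natDegree + 1), C (p.coeff i) * X 0 ^ i := by
  rw [Polynomial.aeval_eq_sum_range, map_sum]
  refine Finset.sum_congr rfl fun i _ => ?_
  rw [map_smul, symxp S, smul_eq_C_mul]

theorem deg_poly (hS : SUB) (S : Std sy br x y) (Φ : A →ₐ[K] A) {dx dy : ℕ}
    (hx : HasD sy (Φ x) dx) (hy : HasD sy (Φ y) dy) (p : Polynomial K) (N : ℕ)
    (hN : Φ (Polynomial.aeval x p) ∈ FilS sy (fun _ => 1) N) (hp : p ≠ 0) :
    p.natDegree * dx ≤ N := by
  have hH : ∀ i, IsWeightedHomogeneous (wt dx dy) (C (p.coeff i) * X 0 ^ i :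
      MvPolynomial (Fin 2) K) (i * dx) := by
    intro i
    have := (isWeightedHomogeneous_C (wt dx dy) (p.coeff i)).mul
      ((isWeightedHomogeneous_X K (wt dx dy) (0 : Fin 2)).pow i)
    simpa [wt] using this
  have hu : Polynomial.aeval x p ∈ FilS sy (wt dx dy) (p.natDegree * dx) := by
    rw [mem_fil]
    intro d hd
    rw [sym_aeval S] at hd
    classical
    obtain ⟨i, hi, h3⟩ := Finset.mem_biUnion.1 (MvPolynomial.support_sum hd)
    have h4 := hH i (mem_support_iff.1 h3)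
    rw [weight_eq] at h4
    rw [h4]
    exact Nat.mul_le_mul_right _ (by have := Finset.mem_range.1 hi; omega)
  have htop : topS sy (wt dx dy) (p.natDegree * dx) (Polynomial.aeval x p) =
      C p.leadingCoeff * X 0 ^ p.natDegree := by
    rw [topS, sym_aeval S, map_sum, Finset.sum_range_succ, Finset.sum_eq_zero, zero_add]
    · exact (hH _).weightedHomogeneousComponent_same
    · intro i hi
      refine (hH i).weightedHomogeneousComponent_ne _ ?_
      intro h
      have h5 := Nat.eq_of_mul_eq_mul_right hx.1 h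
      have := Finset.mem_range.1 hi
      omega
  have h1 := (hS K A sy br x y S (fun _ => 1) (by simp) Φ (wt dx dy) hx.mem hy.mem _ _ hu).2
  refine le_of_top ?_ hN
  rw [h1, htop]
  simp only [map_mul, map_pow, aeval_X, algHom_C, algebraMap_eq, Matrix.cons_val_zero]
  refine mul_ne_zero ?_ (pow_ne_zero _ hx.2.2)
  rw [Ne, C_eq_zero]
  exact Polynomial.leadingCoeff_ne_zero.2 hp

theorem deg_box (hS : SUB) (S : Std sy br x y) (Φ : A →ₐ[K] A) {dx dy : ℕ}
    (hx : HasD sy (Φ x) dx) (hy : HasD sy (Φ y) dy) (c : A) (k : ℕ)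
    (h1 : ∀ d ∈ (sy c).support, d 0 ≤ k ∧ d 1 ≤ k) (c0 : K) (h2 : c0 ≠ 0)
    (h3 : homogeneousComponent (2 * k) (sy c) = C c0 * (X 0 * X 1) ^ k) (N : ℕ)
    (hN : Φ c ∈ FilS sy (fun _ => 1) N) : k * (dx + dy) ≤ N := by
  have hmon : (X 0 * X 1 : MvPolynomial (Fin 2) K) ^ k =
      monomial (Finsupp.single 0 k + Finsupp.single 1 k) 1 := by
    rw [mul_pow, X_pow_eq_monomial, X_pow_eq_monomial, monomial_mul, mul_one]
  have hu : c ∈ FilS sy (wt dx dy) (k * (dx + dy)) := by
    rw [mem_fil]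
    intro d hd
    obtain ⟨a, b⟩ := h1 d hd
    have e1 := Nat.mul_le_mul_right dx a
    have e2 := Nat.mul_le_mul_right dy b
    simp only [wt, Matrix.cons_val_zero, Matrix.cons_val_one]
    rw [mul_add]
    omega
  have htop : topS sy (wt dx dy) (k * (dx + dy)) c = C c0 * (X 0 * X 1) ^ k := by
    rw [hmon] at h3 ⊢
    have h4 := congrArg (coeff (Finsupp.single 0 k + Finsupp.single 1 k)) h3
    rw [← hc_eq, coeff_weightedHomogeneousComponent, if_pos, coeff_C_mul, coeff_monomial,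
      if_pos rfl, mul_one] at h4
    swap
    · rw [weight_eq]; simp; ring
    ext d
    rw [topS, coeff_weightedHomogeneousComponent, weight_eq, coeff_C_mul, coeff_monomial]
    by_cases hd : Finsupp.single 0 k + Finsupp.single 1 k = d
    · rw [if_pos hd, ← hd, h4, if_pos, mul_one]
      simp [wt]; ring
    · rw [if_neg hd, mul_zero]
      split_ifs with h5
      · by_contra hne
        obtain ⟨a, b⟩ := h1 d (mem_support_iff.2 hne)
        apply hd
        simp only [wt, Matrix.cons_val_zero, Matrix.cons_val_one] at h5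
        have e1 := Nat.mul_le_mul_right dx a
        have e2 := Nat.mul_le_mul_right dy b
        rw [mul_add] at h5
        have e3 : d 0 * dx = k * dx := by omega
        have e4 : d 1 * dy = k * dy := by omega
        have e5 := Nat.eq_of_mul_eq_mul_right hx.1 e3
        have e6 := Nat.eq_of_mul_eq_mul_right hy.1 e4
        ext i
        fin_cases i
        · simp [e5]
        · simp [e6]
      · rfl
  have h5 := (hS K A sy br x y S (fun _ => 1) (by simp) Φ (wt dx dy) hx.mem hy.mem _ _ hu).2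
  refine le_of_top ?_ hN
  rw [h5, htop]
  simp only [map_mul, map_pow, aeval_X, algHom_C, algebraMap_eq, Matrix.cons_val_zero,
    Matrix.cons_val_one]
  refine mul_ne_zero ?_ (pow_ne_zero _ (mul_ne_zero hx.2.2 hy.2.2))
  rwa [Ne, C_eq_zero]

theorem deg_ani (hS : SUB) (hA : ANI) (S : Std sy br x y) (Φ : A →ₐ[K] A) {dx dy : ℕ}
    (hx : HasD sy (Φ x) dx) (hy : HasD sy (Φ y) dy) (c : A) (k : ℕ)
    (c0 : K) (h0 : c0 ≠ 0) (q : MvPolynomial (Fin 2) K)
    (hq : Irreducible q) (hq2 : q.IsHomogeneous 2)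
    (h1 : ∀ d ∈ (sy c).support, d 0 + d 1 ≤ 2 * k)
    (h2 : homogeneousComponent (2 * k) (sy c) = C c0 * q ^ k) (N : ℕ)
    (hN : Φ c ∈ FilS sy (fun _ => 1) N) : 2 * k * max dx dy ≤ N := by
  set M := max dx dy with hM
  have hM1 : 1 ≤ M := le_trans hx.1 (le_max_left _ _)
  have hu : c ∈ FilS sy (wt M M) (2 * k * M) := by
    rw [mem_fil]
    intro d hd
    have e1 := Nat.mul_le_mul_right M (h1 d hd)
    simp only [wt, Matrix.cons_val_zero, Matrix.cons_val_one]
    rw [← add_mul]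
    exact e1
  have htop : topS sy (wt M M) (2 * k * M) c = C c0 * q ^ k := by
    rw [← h2]
    ext d
    rw [topS, ← hc_eq, coeff_weightedHomogeneousComponent, coeff_weightedHomogeneousComponent,
      weight_eq, weight_eq]
    simp only [wt, Matrix.cons_val_zero, Matrix.cons_val_one, mul_one, ← add_mul]
    by_cases h : d 0 + d 1 = 2 * k
    · rw [if_pos h, if_pos (by rw [h])]
    · rw [if_neg h, if_neg]
      intro h'
      exact h (Nat.eq_of_mul_eq_mul_right hM1 h')
  have hxM : Φ x ∈ FilS sy (fun _ => 1) M := fil_mono' (le_max_left _ _) hx.mem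
  have hyM : Φ y ∈ FilS sy (fun _ => 1) M := fil_mono' (le_max_right _ _) hy.mem
  have h5 := (hS K A sy br x y S (fun _ => 1) (by simp) Φ (wt M M) hxM hyM _ _ hu).2
  refine le_of_top ?_ hN
  rw [h5, htop]
  simp only [map_mul, map_pow, algHom_C, algebraMap_eq]
  refine mul_ne_zero (by rwa [Ne, C_eq_zero]) (pow_ne_zero _ ?_)
  apply hA K q hq hq2
  rcases le_total dx dy with h | h
  · right
    have : M = dy := max_eq_right h
    change topS sy (fun _ => 1) M (Φ y) ≠ 0
    rw [this]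
    exact hy.2.2
  · left
    have : M = dx := max_eq_left h
    change topS sy (fun _ => 1) M (Φ x) ≠ 0
    rw [this]
    exact hx.2.2

/-- `x ^ 3 + y ^ 2` has a non-torsion partner -/
theorem nt_cusp (hL : LEMM) (S : Std sy br x y) : NT br (x ^ 3 + y ^ 2) := by
  have hsy : sy (x ^ 3 + y ^ 2) = X 1 ^ 2 + C 1 * X 0 ^ 3 := by
    have h1 := S.symb 3 0
    have h2 := S.symb 0 2
    simp only [pow_zero, mul_one, one_mul] at h1 h2
    rw [map_add, h1, h2, map_one]; ring
  have hsq := squarefree_example K 1 one_ne_zero 3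
  have H : IsWeightedHomogeneous (wt 2 3) (X 1 ^ 2 + C 1 * X 0 ^ 3 : MvPolynomial (Fin 2) K) 6 := by
    have h1 := (isWeightedHomogeneous_X K (wt 2 3) (1 : Fin 2)).pow 2
    have h2 := (isWeightedHomogeneous_C (wt 2 3) (1 : K)).mul
      ((isWeightedHomogeneous_X K (wt 2 3) (0 : Fin 2)).pow 3)
    simp only [wt, Matrix.cons_val_zero, Matrix.cons_val_one, smul_eq_mul] at h1 h2
    exact IsWeightedHomogeneous.add h1 h2
  have hmem : x ^ 3 + y ^ 2 ∈ FilS sy (wt 2 3) 6 := by
    rw [mem_fil, hsy]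
    intro d hd
    have := H (mem_support_iff.1 hd)
    rw [weight_eq] at this
    omega
  have htop : topS sy (wt 2 3) 6 (x ^ 3 + y ^ 2) = X 1 ^ 2 + C 1 * X 0 ^ 3 := by
    rw [topS, hsy]
    exact weightedHomogeneousComponent_eq_self H
  have hne : (X 1 ^ 2 + C 1 * X 0 ^ 3 : MvPolynomial (Fin 2) K) ≠ 0 := hsq.ne_zero
  have hnu : ¬ IsUnit (X 1 ^ 2 + C 1 * X 0 ^ 3 : MvPolynomial (Fin 2) K) := by
    intro hu
    have h1 := hu.map (MvPolynomial.aeval (fun _ : Fin 2 => (0 : K)))
    simp at h1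
  obtain ⟨q, hq, hqd⟩ := WfDvdMonoid.exists_irreducible_factor hnu hne
  refine hL K A sy br S.sys (wt 2 3) (fun i => by fin_cases i <;> simp [wt]) _ 6 hmem q hq 1
    le_rfl (by rw [pow_one, htop]; exact hqd) ?_ (by simp [wt])
  rw [htop]
  intro h
  apply hq.not_isUnit
  apply hsq q
  rw [pow_two] at h
  exact h

theorem endo_x_nonscalar (Φ : A →ₐ[K] A) (h : Function.Injective Φ) (u : A)
    (hu : ∀ c : K, u ≠ algebraMap K A c) (c : K) : Φ u ≠ algebraMap K A c := by
  intro e
  apply hu c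
  apply h
  rw [e, AlgHom.commutes]

theorem x_nonscalar (S : Std sy br x y) (c : K) : x ≠ algebraMap K A c := by
  refine nonscalar_of S x 1 le_rfl ?_ c
  rw [symx S, ← hc_eq, weightedHomogeneousComponent_eq_self]
  · exact X_ne_zero _
  · exact isWeightedHomogeneous_X K _ 0

theorem y_nonscalar (S : Std sy br x y) (c : K) : y ≠ algebraMap K A c := by
  refine nonscalar_of S y 1 le_rfl ?_ c
  rw [symy S, ← hc_eq, weightedHomogeneousComponent_eq_self]
  · exact X_ne_zero _
  · exact isWeightedHomogeneous_X K _ 1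

theorem exists_hasD (S : Std sy br x y) (Φ : A →ₐ[K] A) (h : Function.Injective Φ) (u : A)
    (hu : ∀ c : K, u ≠ algebraMap K A c) : ∃ n, HasD sy (Φ u) n :=
  exists_deg S (Φ u) (endo_x_nonscalar Φ h u hu)

/-- growth of the larger of the two degrees -/
theorem Chain.big (hL : LEMM) (S : Std sy br x y) (hK : Kel br) {k : ℕ} {Φ : A →ₐ[K] A}
    (h : Chain br k Φ) {dx dy : ℕ} (hx : HasD sy (Φ x) dx) (hy : HasD sy (Φ y) dy) :
    2 ^ k < 9 * (max dx dy) ^ 2 := by
  set M := max dx dy with hM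
  have hM1 : 1 ≤ M := le_trans hx.1 (le_max_left _ _)
  have hxM : Φ x ∈ FilS sy (fun _ => 1) M := fil_mono' (le_max_left _ _) hx.mem
  have hyM : Φ y ∈ FilS sy (fun _ => 1) M := fil_mono' (le_max_right _ _) hy.mem
  have m := S.sys.mul (fun _ => 1) (by simp)
  have hx2 := (m _ _ _ _ hxM hxM).1
  have hx3 := (m _ _ _ _ hx2 hxM).1
  have hy2 := (m _ _ _ _ hyM hyM).1
  have hmem : Φ (x ^ 3 + y ^ 2) ∈ FilS sy (fun _ => 1) (3 * M) := by
    rw [map_add, map_pow, map_pow, pow_succ, pow_two, pow_two]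
    exact Submodule.add_mem _ (fil_mono' (by omega) hx3) (fil_mono' (by omega) hy2)
  have h1 := h.rank S.sys hK (nt_cusp hL S) hmem
  obtain ⟨t, ht⟩ : ∃ t, M = t + 1 := ⟨M - 1, by omega⟩
  rw [ht] at h1 ⊢
  have h2 : 3 * (t + 1) - 2 = 3 * t + 1 := by omega
  rw [h2] at h1
  nlinarith

end

end Pool.Agent.H193R5.EG
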