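import Pool.Agent.H193R5.EG.Deg

/-! # Exponential growth of all nonscalar elements: the abstract theorem -/

set_option autoImplicit false
set_option linter.unusedSectionVars false

open MvPolynomial Pool.Agent.H88R2.DC

namespace Pool.Agent.H193R5.EG

section
variable {K A : Type} [Field K] [CharZero K] [Ring A] [Algebra K A]
  {sy : A ≃ₗ[K] MvPolynomial (Fin 2) K} {br : A →ₗ[K] A →ₗ[K] A} {x y : A}

theorem exists_poly (S : Std sy br x y) (c : A) (h1 : ∀ d ∈ (sy c).support, d 1 = 0) :
    ∃ p : Polynomial K, c = Polynomial.aeval x p := by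
  set n := (sy c).support.sup (fun d => d 0) with hn
  let p : Polynomial K := ∑ i ∈ Finset.range (n + 1),
    Polynomial.monomial i (coeff (Finsupp.single 0 i) (sy c))
  refine ⟨p, ?_⟩
  apply sy.injective
  have e1 : Polynomial.aeval x p = ∑ i ∈ Finset.range (n + 1),
      (coeff (Finsupp.single 0 i) (sy c)) • x ^ i := by
    simp only [p, map_sum, Polynomial.aeval_monomial, Algebra.smul_def]
  rw [e1, map_sum]
  simp only [map_smul, symxp S]
  ext d
  rw [coeff_sum]
  by_cases hd : d ∈ (sy c).support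
  · have h2 := h1 d hd
    have h3 : d 0 ≤ n := Finset.le_sup (f := fun d : Fin 2 →₀ ℕ => d 0) hd
    have hd' : d = Finsupp.single 0 (d 0) := by
      ext i
      fin_cases i
      · simp
      · simpa using h2
    rw [Finset.sum_eq_single (d 0)]
    · rw [coeff_smul, coeff_X_pow, if_pos hd'.symm, smul_eq_mul, mul_one, ← hd']
    · intro i _ hi
      rw [coeff_smul, coeff_X_pow, if_neg, smul_zero]
      intro h
      apply hi
      rw [← h]; simp
    · intro h
      exact absurd (Finset.mem_range.2 (by omega)) h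
  · have h2 : coeff d (sy c) = 0 := notMem_support_iff.1 hd
    rw [h2, Finset.sum_eq_zero]
    intro i _
    rw [coeff_smul, coeff_X_pow]
    split_ifs with h3
    · rw [h3, h2, zero_smul]
    · rw [smul_zero]

/-- `x` and `y` generate -/
theorem gen_of (S : Std sy br x y) (R : Subalgebra K A) (hx : x ∈ R) (hy : y ∈ R) (u : A) :
    u ∈ R := by
  have : u = ∑ d ∈ (sy u).support, coeff d (sy u) • (x ^ d 0 * y ^ d 1) := by
    apply sy.injective
    rw [map_sum]
    conv_lhs => rw [(sy u).as_sum]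
    refine Finset.sum_congr rfl fun d _ => ?_
    rw [map_smul, S.symb, smul_eq_C_mul, monomial_eq, Finsupp.prod_fintype _ _ (fun _ => pow_zero _),
      Fin.prod_univ_two]
  rw [this]
  exact R.sum_mem fun d _ => R.smul_mem (R.mul_mem (R.pow_mem hx _) (R.pow_mem hy _)) _

/-- an endomorphism with `x ↦ α x + β` is surjective -/
theorem surj_of_linear (S : Std sy br x y) (hone : ∀ v, br 1 v = 0) (τ : A →ₐ[K] A)
    (h : Endo br τ) (α β : K) (hα : α ≠ 0)
    (hx : τ x = α • x + algebraMap K A β) : Function.Surjective τ := by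
  obtain ⟨κ, hκ, hc⟩ := h.comp
  have h1 : br (τ x) (τ y) = κ • (1 : A) := by
    rw [hc]
    have : br x y = 1 := by
      apply sy.injective
      rw [S.brx, symy S, pderiv_X_self, sym1 S]
    rw [this, map_one]
  have hb : br (τ x) (τ y) = α • br x (τ y) := by
    have h0 : br (algebraMap K A β) (τ y) = 0 := by
      rw [Algebra.algebraMap_eq_smul_one, map_smul, LinearMap.smul_apply, hone, smul_zero]
    rw [hx, map_add, LinearMap.add_apply, h0, add_zero, map_smul, LinearMap.smul_apply]
  rw [hb] at h1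
  have h2 : pderiv 1 (sy (τ y)) = C (α⁻¹ * κ) := by
    rw [← S.brx]
    have : br x (τ y) = (α⁻¹ * κ) • (1 : A) := by
      rw [mul_smul, ← h1, smul_smul, inv_mul_cancel₀ hα, one_smul]
    rw [this, map_smul, sym1 S, smul_eq_C_mul, mul_one]
  have h3 : ∀ d ∈ (sy (τ y - (α⁻¹ * κ) • y)).support, d 1 = 0 := by
    intro d hd
    by_contra hne
    apply mem_support_iff.1 hd
    have h4 : pderiv 1 (sy (τ y - (α⁻¹ * κ) • y)) = 0 := by
      rw [map_sub, map_sub, h2, map_smul, symy S, smul_eq_C_mul, pderiv_C_mul, pderiv_X_self,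
        mul_one, sub_self]
    obtain ⟨m, hm⟩ : ∃ m : Fin 2 →₀ ℕ, d = m + Finsupp.single 1 1 :=
      ⟨d - Finsupp.single 1 1, by
        rw [tsub_add_cancel_of_le]
        rw [Finsupp.single_le_iff]; omega⟩
    have h5 := congrArg (coeff m) h4
    rw [coeff_pderiv, coeff_zero, ← hm] at h5
    rcases mul_eq_zero.1 h5 with h6 | h6
    · exact h6
    · exfalso
      exact Nat.cast_add_one_ne_zero (m 1) h6
  obtain ⟨p, hp⟩ := exists_poly S _ h3
  have hxr : x ∈ τ.range := by
    refine ⟨α⁻¹ • (x - algebraMap K A β), ?_⟩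
    change τ (α⁻¹ • (x - algebraMap K A β)) = x
    rw [map_smul, map_sub, hx, AlgHom.commutes, add_sub_cancel_right, smul_smul,
      inv_mul_cancel₀ hα, one_smul]
  have hyr : y ∈ τ.range := by
    have h4 : y = (α⁻¹ * κ)⁻¹ • (τ y - Polynomial.aeval x p) := by
      rw [← hp, sub_sub_cancel, smul_smul, inv_mul_cancel₀ (mul_ne_zero (inv_ne_zero hα) hκ),
        one_smul]
    rw [h4]
    refine τ.range.smul_mem (τ.range.sub_mem ⟨y, rfl⟩ ?_) _
    have h5 : Polynomial.aeval x p ∈ Algebra.adjoin K ({x} : Set A) :=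
      Polynomial.aeval_mem_adjoin_singleton K x
    exact Algebra.adjoin_le (Set.singleton_subset_iff.2 hxr) h5
  intro u
  exact gen_of S τ.range hxr hyr u

/-- growth of the degree of the image of `x` -/
theorem growth_x (hL : LEMM) (hS : SUB) (hF : FORM) (hR1 : RONE) (hR2 : RTWO) (hA : ANI)
    (S : Std sy br x y) (hone : ∀ v, br 1 v = 0) (hK : Kel br) (k : ℕ) :
    ∀ (Φ : A →ₐ[K] A), Chain br k Φ → ∀ N, 1 ≤ N → Φ x ∈ FilS sy (fun _ => 1) N →
      2 ^ k ≤ 18 * N ^ 2 := by
  induction k with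
  | zero =>
    intro Φ _ N hN _
    nlinarith
  | succ k ih =>
    intro Φ h N hN1 hN
    cases h with
    | succ _ Φ' φ h1 h2 h3 =>
    have hN' : Φ' (φ x) ∈ FilS sy (fun _ => 1) N := hN
    by_cases hnt : NT br (φ x)
    · have h4 := h1.rank S.sys hK hnt hN'
      have h5 : N * (N - 2) ≤ N * N := Nat.mul_le_mul_left _ (Nat.sub_le _ _)
      rw [pow_succ]
      nlinarith
    · obtain ⟨n, hn1, hn2, hn3⟩ := exists_hasD S φ h2.inj x (x_nonscalar S)
      obtain ⟨σ, hσ, hnf⟩ := red_holds hL hS hF hR1 hR2 S n (φ x) hn1 hn2 hn3 hnt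
      have h1' := h1.auto σ.symm hσ.symm
      have hN'' : (Φ'.comp (σ.symm : A →ₐ[K] A)) (σ (φ x)) ∈ FilS sy (fun _ => 1) N := by
        change Φ' (σ.symm (σ (φ x))) ∈ _
        rw [AlgEquiv.symm_apply_apply]
        exact hN'
      set Ψ := Φ'.comp (σ.symm : A →ₐ[K] A) with hΨ
      obtain ⟨dx, hx⟩ := exists_hasD S Ψ h1'.endo.inj x (x_nonscalar S)
      obtain ⟨dy, hy⟩ := exists_hasD S Ψ h1'.endo.inj y (y_nonscalar S)
      have hbig := h1'.big hL S hK hx hy
      cases hnf with
      | poly p hp hpe =>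
        rw [hpe] at hN''
        have hp0 : p ≠ 0 := by rintro rfl; simp at hp
        have h5 := deg_poly hS S Ψ hx hy p N hN'' hp0
        have h6 : 2 ≤ p.natDegree := by
          by_contra hlt
          have h7 : p.natDegree = 1 := by omega
          apply h3
          have h8 : p = Polynomial.C (p.coeff 1) * Polynomial.X + Polynomial.C (p.coeff 0) :=
            Polynomial.eq_X_add_C_of_natDegree_le_one h7.le
          have hco : p.coeff 1 ≠ 0 := by
            rw [← h7]
            exact Polynomial.leadingCoeff_ne_zero.2 hp0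
          have hlin : ((σ : A →ₐ[K] A).comp φ) x = p.coeff 1 • x + algebraMap K A (p.coeff 0) := by
            change σ (φ x) = _
            rw [hpe]
            conv_lhs => rw [h8]
            rw [map_add, map_mul, Polynomial.aeval_C, Polynomial.aeval_X, Polynomial.aeval_C,
              Algebra.smul_def]
          have hsu := surj_of_linear S hone _ (hσ.endo.mul h2) _ _ hco hlin
          intro b
          obtain ⟨a, ha⟩ := hsu (σ b)
          exact ⟨a, σ.injective ha⟩
        have h7 := ih Ψ h1' dx hx.1 hx.mem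
        have h8 : 2 * dx ≤ N := le_trans (Nat.mul_le_mul_right _ h6) h5
        have h9 : (2 * dx) ^ 2 ≤ N ^ 2 := Nat.pow_le_pow_left h8 2
        rw [pow_succ]
        nlinarith
      | box m hm g1 c0 g2 g3 =>
        have h5 := deg_box hS S Ψ hx hy (σ (φ x)) m g1 c0 g2 g3 N hN''
        have h6 : max dx dy ≤ N := by
          have : 1 * (dx + dy) ≤ m * (dx + dy) := Nat.mul_le_mul_right _ hm
          have h7 : max dx dy ≤ dx + dy := max_le (by omega) (by omega)
          omega
        have h9 : (max dx dy) ^ 2 ≤ N ^ 2 := Nat.pow_le_pow_left h6 2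
        rw [pow_succ]
        nlinarith
      | ani m hm c0 g0 q gq gq2 g1 g2 =>
        have h5 := deg_ani hS hA S Ψ hx hy (σ (φ x)) m c0 g0 q gq gq2 g1 g2 N hN''
        have h6 : max dx dy ≤ N := by
          have : 1 * max dx dy ≤ (2 * m) * max dx dy := Nat.mul_le_mul_right _ (by omega)
          omega
        have h9 : (max dx dy) ^ 2 ≤ N ^ 2 := Nat.pow_le_pow_left h6 2
        rw [pow_succ]
        nlinarith

/-- growth of the degree of the image of every nonscalar element -/
theorem growth_all (hL : LEMM) (hS : SUB) (hF : FORM) (hR1 : RONE) (hR2 : RTWO) (hA : ANI)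
    (S : Std sy br x y) (hone : ∀ v, br 1 v = 0) (hK : Kel br) (k : ℕ)
    (Φ : A →ₐ[K] A) (h : Chain br k Φ) (a : A) (ha : ∀ c : K, a ≠ algebraMap K A c)
    (N : ℕ) (hN : Φ a ∈ FilS sy (fun _ => 1) N) : 2 ^ k ≤ 18 * N ^ 2 := by
  have hN1 : 1 ≤ N := by
    obtain ⟨n, hn⟩ := exists_hasD S Φ h.endo.inj a ha
    exact le_trans hn.1 (le_of_top hn.2.2 hN)
  by_cases hnt : NT br a
  · have h4 := h.rank S.sys hK hnt hN
    have h5 : N * (N - 2) ≤ N * N := Nat.mul_le_mul_left _ (Nat.sub_le _ _)
    nlinarith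
  · obtain ⟨n, hn1, hn2, hn3⟩ := exists_deg S a ha
    obtain ⟨σ, hσ, hnf⟩ := red_holds hL hS hF hR1 hR2 S n a hn1 hn2 hn3 hnt
    have h1' := h.auto σ.symm hσ.symm
    have hN'' : (Φ.comp (σ.symm : A →ₐ[K] A)) (σ a) ∈ FilS sy (fun _ => 1) N := by
      change Φ (σ.symm (σ a)) ∈ _
      rw [AlgEquiv.symm_apply_apply]
      exact hN
    set Ψ := Φ.comp (σ.symm : A →ₐ[K] A) with hΨ
    obtain ⟨dx, hx⟩ := exists_hasD S Ψ h1'.endo.inj x (x_nonscalar S)
    obtain ⟨dy, hy⟩ := exists_hasD S Ψ h1'.endo.inj y (y_nonscalar S)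
    have hbig := h1'.big hL S hK hx hy
    cases hnf with
    | poly p hp hpe =>
      rw [hpe] at hN''
      have hp0 : p ≠ 0 := by rintro rfl; simp at hp
      have h5 := deg_poly hS S Ψ hx hy p N hN'' hp0
      have h8 : dx ≤ N := by
        have : 1 * dx ≤ p.natDegree * dx := Nat.mul_le_mul_right _ hp
        omega
      have h7 := growth_x hL hS hF hR1 hR2 hA S hone hK k Ψ h1' dx hx.1 hx.mem
      have h9 : dx ^ 2 ≤ N ^ 2 := Nat.pow_le_pow_left h8 2
      nlinarith
    | box m hm g1 c0 g2 g3 =>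
      have h5 := deg_box hS S Ψ hx hy (σ a) m g1 c0 g2 g3 N hN''
      have h6 : max dx dy ≤ N := by
        have : 1 * (dx + dy) ≤ m * (dx + dy) := Nat.mul_le_mul_right _ hm
        have h7 : max dx dy ≤ dx + dy := max_le (by omega) (by omega)
        omega
      have h9 : (max dx dy) ^ 2 ≤ N ^ 2 := Nat.pow_le_pow_left h6 2
      nlinarith
    | ani m hm c0 g0 q gq gq2 g1 g2 =>
      have h5 := deg_ani hS hA S Ψ hx hy (σ a) m c0 g0 q gq gq2 g1 g2 N hN''
      have h6 : max dx dy ≤ N := by
        have : 1 * max dx dy ≤ (2 * m) * max dx dy := Nat.mul_le_mul_right _ (by omega)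
        omega
      have h9 : (max dx dy) ^ 2 ≤ N ^ 2 := Nat.pow_le_pow_left h6 2
      nlinarith

end

end Pool.Agent.H193R5.EG
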