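import Pool.Agent.H193R5.EG.NForm

/-! # Reduction to normal form -/

set_option autoImplicit false
set_option linter.unusedSectionVars false

open MvPolynomial Pool.Agent.H88R2.DC

namespace Pool.Agent.H193R5.EG

theorem coeff_restrict {K : Type} [Field K] (P : MvPolynomial (Fin 2) K) (n : ℕ) :
    coeff (Finsupp.single 0 n) (aeval ![X 0, (0 : MvPolynomial (Fin 2) K)] P) =
      coeff (Finsupp.single 0 n) P := by
  induction P using MvPolynomial.induction_on' with
  | add p q hp hq => rw [map_add, coeff_add, coeff_add, hp, hq]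
  | monomial d c =>
    rw [aeval_monomial, Finsupp.prod_fintype _ _ (fun _ => pow_zero _), Fin.prod_univ_two]
    simp only [Matrix.cons_val_zero, Matrix.cons_val_one]
    rw [algebraMap_eq, coeff_C_mul, coeff_monomial]
    by_cases h1 : d 1 = 0
    · rw [h1, pow_zero, mul_one, coeff_X_pow]
      have hd : d = Finsupp.single 0 (d 0) := by
        ext i
        fin_cases i
        · simp
        · simpa using h1
      rw [← hd]
      split_ifs <;> simp
    · rw [zero_pow h1, mul_zero, coeff_zero, mul_zero, if_neg]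
      intro h
      apply h1
      rw [h]; simp

section
variable {K A : Type} [Field K] [CharZero K] [Ring A] [Algebra K A]
  {sy : A ≃ₗ[K] MvPolynomial (Fin 2) K} {br : A →ₗ[K] A →ₗ[K] A} {x y : A}

/-- induction hypothesis / conclusion -/
def Red (sy : A ≃ₗ[K] MvPolynomial (Fin 2) K) (br : A →ₗ[K] A →ₗ[K] A) (x : A) (n : ℕ) : Prop :=
  ∀ c : A, 1 ≤ n → (∀ d ∈ (sy c).support, d 0 + d 1 ≤ n) →
    homogeneousComponent n (sy c) ≠ 0 → ¬ NT br c →
    ∃ σ : A ≃ₐ[K] A, Aut br σ ∧ NF sy x (σ c)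

theorem case_X (hL : LEMM) (hS : SUB) (hR : RONE) (S : Std sy br x y) (n : ℕ)
    (ih : ∀ m < n, Red sy br x m) (c : A) (hn : 1 ≤ n)
    (hc : ∀ d ∈ (sy c).support, d 0 + d 1 ≤ n) (c0 : K) (hc0 : c0 ≠ 0)
    (htop : homogeneousComponent n (sy c) = C c0 * X 0 ^ n) (hnt : ¬ NT br c) :
    ∃ σ : A ≃ₐ[K] A, Aut br σ ∧ NF sy x (σ c) := by
  rcases hR K (sy c) n hn (big_of hL S c hnt) hc c0 hc0 htop with h1 | ⟨r, lam, hr, hs, hz⟩
  · exact ⟨AlgEquiv.refl, Aut.refl, poly_of S c n hn hc c0 hc0 htop h1⟩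
  · obtain ⟨σ, s0, s1, s2⟩ := S.elem lam r
    have hmem : c ∈ FilS sy (wt 1 r) n := mem_fil.2 fun d hd => by
      have := hs d hd
      simpa [wt] using this
    obtain ⟨t1, t2⟩ := elem_top hS S lam r (by omega) σ s0 s1 c n hmem
    have hco : coeff (Finsupp.single 0 n) (sy (σ c)) = 0 := by
      have e1 : coeff (Finsupp.single 0 n) (sy (σ c)) =
          coeff (Finsupp.single 0 n) (weightedHomogeneousComponent (wt 1 r) n (sy (σ c))) := by
        rw [coeff_weightedHomogeneousComponent, if_pos]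
        rw [weight_eq]; simp [wt]
      rw [e1, t2, ← coeff_restrict]
      have e2 : aeval ![X 0, (0 : MvPolynomial (Fin 2) K)] (aeval ![X 0, X 1 + C lam * X 0 ^ r]
          (weightedHomogeneousComponent (wt 1 r) n (sy c))) =
          aeval ![X 0, C lam * X 0 ^ r] (weightedHomogeneousComponent (wt 1 r) n (sy c)) := by
        rw [← AlgHom.comp_apply]
        congr 1
        apply MvPolynomial.algHom_ext
        intro i
        fin_cases i
        · simp
        · simp [algebraMap_eq]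
      rw [e2, hz, coeff_zero]
    have hns : ∀ κ : K, σ c ≠ algebraMap K A κ := by
      intro κ h
      apply nonscalar_of S c n hn (by
        rw [htop]
        exact mul_ne_zero (by rwa [Ne, C_eq_zero]) (pow_ne_zero _ (X_ne_zero _))) κ
      apply σ.injective
      rw [h, AlgEquiv.commutes]
    obtain ⟨n', g1, g2, g3⟩ := exists_deg S (σ c) hns
    have hlt : n' < n := by
      by_contra hge
      push Not at hge
      have : ∃ d ∈ (sy (σ c)).support, d 0 + d 1 = n' := by
        by_contra hcon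
        push Not at hcon
        apply g3
        ext d
        rw [← hc_eq, coeff_weightedHomogeneousComponent, weight_eq, coeff_zero]
        split_ifs with h
        · by_contra hne
          exact hcon d (mem_support_iff.2 hne) (by simpa using h)
        · rfl
      obtain ⟨d, hd, hd'⟩ := this
      have h2 := mem_fil.1 t1 d hd
      simp only [wt, Matrix.cons_val_zero, Matrix.cons_val_one] at h2
      have h3 : d 1 * 2 ≤ d 1 * r := Nat.mul_le_mul_left _ hr
      have h4 : d 1 = 0 := by omega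
      have h5 : d 0 = n := by omega
      apply mem_support_iff.1 hd
      have hd'' : d = Finsupp.single 0 n := by
        ext i
        fin_cases i
        · simpa using h5
        · simpa using h4
      rw [hd'']
      exact hco
    have hnt' : ¬ NT br (σ c) := fun h => hnt (nt_of_auto σ s2 c h)
    obtain ⟨τ, u1, u2⟩ := ih n' hlt (σ c) g1 g2 g3 hnt'
    exact ⟨σ.trans τ, Aut.trans s2 u1, u2⟩

theorem case_XY (hL : LEMM) (hR : RTWO) (S : Std sy br x y) (k : ℕ) (c : A) (hk : 1 ≤ k)
    (hc : ∀ d ∈ (sy c).support, d 0 + d 1 ≤ 2 * k) (c0 : K) (hc0 : c0 ≠ 0)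
    (htop : homogeneousComponent (2 * k) (sy c) = C c0 * (X 0 * X 1) ^ k) (hnt : ¬ NT br c) :
    NF sy x c :=
  NF.box k hk (hR K (sy c) k hk (big_of hL S c hnt) hc c0 hc0 htop) c0 hc0 htop

/-- the two linear forms case, when the second one involves `Y` -/
theorem case_two (hL : LEMM) (hS : SUB) (hR : RTWO) (S : Std sy br x y) (k : ℕ) (c : A)
    (hk : 1 ≤ k) (hc : ∀ d ∈ (sy c).support, d 0 + d 1 ≤ 2 * k) (c0 a b a' b' : K) (hc0 : c0 ≠ 0)
    (hdet : a * b' - b * a' ≠ 0) (hb : b' ≠ 0)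
    (htop : homogeneousComponent (2 * k) (sy c) =
      C c0 * ((C a * X 0 + C b * X 1) * (C a' * X 0 + C b' * X 1)) ^ k) (hnt : ¬ NT br c) :
    ∃ σ : A ≃ₐ[K] A, Aut br σ ∧ NF sy x (σ c) := by
  obtain ⟨σ₁, s0, s1, s2⟩ := S.elem (-(a' / b')) 1
  obtain ⟨σ₂, t0, t1, t2⟩ := S.swap
  set a1 : K := a - b * a' / b' with ha1
  have ha1' : a1 ≠ 0 := by
    intro h
    apply hdet
    have : a1 * b' = a * b' - b * a' := by rw [ha1]; field_simp
    rw [← this, h, zero_mul]
  obtain ⟨σ₃, r0, r1, r2⟩ := S.elem (b / a1) 1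
  obtain ⟨p1, q1⟩ := elem_hc hS S _ σ₁ s0 s1 c (2 * k) hc
  obtain ⟨p2, q2⟩ := swap_hc hS S σ₂ t0 t1 (σ₁ c) (2 * k) p1
  obtain ⟨p3, q3⟩ := elem_hc hS S _ σ₃ r0 r1 (σ₂ (σ₁ c)) (2 * k) p2
  have hA : Aut br ((σ₁.trans σ₂).trans σ₃) := Aut.trans (Aut.trans s2 t2) r2
  refine ⟨(σ₁.trans σ₂).trans σ₃, hA, ?_⟩
  refine case_XY hL hR S k _ hk p3 (c0 * (-(a1 * b')) ^ k)
    (mul_ne_zero hc0 (pow_ne_zero _ (neg_ne_zero.2 (mul_ne_zero ha1' hb)))) ?_
    (fun h => hnt (nt_of_auto _ hA c h))
  change homogeneousComponent (2 * k) (sy (σ₃ (σ₂ (σ₁ c)))) = _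
  rw [q3, q2, q1, htop]
  simp only [map_mul, map_pow, map_add, aeval_X, algHom_C, algebraMap_eq, Matrix.cons_val_zero,
    Matrix.cons_val_one, map_neg]
  have e1 : (C b' * C (a' / b') : MvPolynomial (Fin 2) K) = C a' := by
    rw [← map_mul]; congr 1; field_simp
  have e2 : (C a1 : MvPolynomial (Fin 2) K) = C a - C b * C (a' / b') := by
    rw [ha1, ← map_mul, ← map_sub]; congr 1; ring
  have e3 : (C a1 * C (b / a1) : MvPolynomial (Fin 2) K) = C b := by
    rw [← map_mul]; congr 1; field_simp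
  have f1 : (C a * (X 1 + C (b / a1) * X 0) + C b * (-X 0 + -C (a' / b') *
      (X 1 + C (b / a1) * X 0)) : MvPolynomial (Fin 2) K) = C a1 * X 1 := by
    linear_combination (-(X 1 + C (b / a1) * X 0)) * e2 + X 0 * e3
  have f2 : (C a' * (X 1 + C (b / a1) * X 0) + C b' * (-X 0 + -C (a' / b') *
      (X 1 + C (b / a1) * X 0)) : MvPolynomial (Fin 2) K) = - (C b' * X 0) := by
    linear_combination (-(X 1 + C (b / a1) * X 0)) * e1
  have f3 : (C a1 * X 1 * -(C b' * X 0) : MvPolynomial (Fin 2) K) =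
      (-(C a1 * C b')) * (X 0 * X 1) := by ring
  rw [f1, f2, f3, mul_pow, mul_assoc]

theorem red_holds (hL : LEMM) (hS : SUB) (hF : FORM) (hR1 : RONE) (hR2 : RTWO)
    (S : Std sy br x y) : ∀ n, Red sy br x n := by
  intro n
  induction n using Nat.strong_induction_on with
  | _ n ih =>
  intro c hn hc hne hnt
  have hbig := big_of hL S c hnt
  rcases hF K (homogeneousComponent n (sy c)) n hn (homogeneousComponent_isHomogeneous n _) hne
    (fun q m hq hm h1 h2 => by
      have := hbig (fun _ => 1) (by simp) n (by simpa using hc) q hq m hm h1 h2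
      omega) with
    ⟨c0, a, b, hc0, hab, hf⟩ | ⟨k, c0, a, b, a', b', hk, hc0, hdet, hf⟩ |
    ⟨k, c0, q, hk, hc0, hq, hq2, hf⟩
  · by_cases hb : b = 0
    · have ha : a ≠ 0 := by
        rcases hab with h | h
        · exact h
        · exact absurd hb h
      refine case_X hL hS hR1 S n ih c hn hc (c0 * a ^ n) (mul_ne_zero hc0 (pow_ne_zero _ ha)) ?_
        hnt
      rw [hf, hb]
      simp only [map_zero, zero_mul, add_zero, map_mul, map_pow]
      ring
    · obtain ⟨σ₁, s0, s1, s2⟩ := S.elem (-(a / b)) 1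
      obtain ⟨σ₂, t0, t1, t2⟩ := S.swap
      obtain ⟨p1, q1⟩ := elem_hc hS S _ σ₁ s0 s1 c n hc
      obtain ⟨p2, q2⟩ := swap_hc hS S σ₂ t0 t1 (σ₁ c) n p1
      have hA : Aut br (σ₁.trans σ₂) := Aut.trans s2 t2
      obtain ⟨τ, u1, u2⟩ := case_X hL hS hR1 S n ih (σ₂ (σ₁ c)) hn p2 (c0 * (-b) ^ n)
        (mul_ne_zero hc0 (pow_ne_zero _ (neg_ne_zero.2 hb))) (by
          rw [q2, q1, hf]
          simp only [map_mul, map_pow, map_add, aeval_X, algHom_C, algebraMap_eq,
            Matrix.cons_val_zero, Matrix.cons_val_one, map_neg]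
          have e1 : (C b * C (a / b) : MvPolynomial (Fin 2) K) = C a := by
            rw [← map_mul]; congr 1; field_simp
          have f1 : (C a * X 1 + C b * (-X 0 + -C (a / b) * X 1) : MvPolynomial (Fin 2) K) =
              -C b * X 0 := by
            linear_combination (-X 1) * e1
          rw [f1, mul_pow]
          ring) (fun h => hnt (nt_of_auto _ hA c h))
      exact ⟨(σ₁.trans σ₂).trans τ, Aut.trans hA u1, u2⟩
  · subst hk
    by_cases hb : b' = 0
    · have hb' : b ≠ 0 := by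
        rintro rfl
        apply hdet
        rw [hb]; ring
      refine case_two hL hS hR2 S k c (by omega) hc c0 a' b' a b hc0 ?_ hb' ?_ hnt
      · intro h
        apply hdet
        linear_combination -h
      · rw [hf]
        congr 2
        ring
    · exact case_two hL hS hR2 S k c (by omega) hc c0 a b a' b' hc0 hdet hb hf hnt
  · subst hk
    exact ⟨AlgEquiv.refl, Aut.refl, NF.ani k (by omega) c0 hc0 q hq hq2 hc hf⟩

end

end Pool.Agent.H193R5.EG
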