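import Pool.Agent.H193R5.EG.Core

/-! # Normal forms of elements all of whose partners are torsion -/

set_option autoImplicit false
set_option linter.unusedSectionVars false

open MvPolynomial Pool.Agent.H88R2.DC

namespace Pool.Agent.H193R5.EG

section
variable {K A : Type} [Field K] [CharZero K] [Ring A] [Algebra K A]
  {sy : A ≃ₗ[K] MvPolynomial (Fin 2) K} {br : A →ₗ[K] A →ₗ[K] A} {x y : A}

/-- normal forms -/
inductive NF (sy : A ≃ₗ[K] MvPolynomial (Fin 2) K) (x : A) (c : A) : Prop
  | poly (p : Polynomial K) (h : 1 ≤ p.natDegree) (e : c = Polynomial.aeval x p)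
  | box (k : ℕ) (h : 1 ≤ k) (h1 : ∀ d ∈ (sy c).support, d 0 ≤ k ∧ d 1 ≤ k)
      (c0 : K) (h2 : c0 ≠ 0)
      (h3 : homogeneousComponent (2 * k) (sy c) = C c0 * (X 0 * X 1) ^ k)
  | ani (k : ℕ) (h : 1 ≤ k) (c0 : K) (h0 : c0 ≠ 0) (q : MvPolynomial (Fin 2) K)
      (hq : Irreducible q) (hq2 : q.IsHomogeneous 2)
      (h1 : ∀ d ∈ (sy c).support, d 0 + d 1 ≤ 2 * k)
      (h2 : homogeneousComponent (2 * k) (sy c) = C c0 * q ^ k)

theorem symx (S : Std sy br x y) : sy x = X 0 := by
  have := S.symb 1 0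
  simpa using this

theorem symy (S : Std sy br x y) : sy y = X 1 := by
  have := S.symb 0 1
  simpa using this

theorem symxp (S : Std sy br x y) (i : ℕ) : sy (x ^ i) = X 0 ^ i := by
  have := S.symb i 0
  simpa using this

theorem sym1 (S : Std sy br x y) : sy 1 = 1 := by
  have := S.symb 0 0
  simpa using this

theorem symC (S : Std sy br x y) (c : K) : sy (algebraMap K A c) = C c := by
  rw [Algebra.algebraMap_eq_smul_one, map_smul, sym1 S, smul_eq_C_mul, mul_one]

theorem hc_eq (n : ℕ) (P : MvPolynomial (Fin 2) K) :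
    weightedHomogeneousComponent (fun _ : Fin 2 => 1) n P = homogeneousComponent n P := rfl

theorem big_of (hL : LEMM) (S : Std sy br x y) (c : A) (hc : ¬ NT br c) : Big (sy c) := by
  intro w hw n hn q hq m hm h1 h2
  by_contra hlt
  push Not at hlt
  exact hc (hL K A sy br S.sys w hw c n (mem_fil.2 hn) q hq m hm h1 h2 hlt)

/-- the degree of a nonscalar element -/
theorem exists_deg (S : Std sy br x y) (u : A) (hu : ∀ c : K, u ≠ algebraMap K A c) :
    ∃ n, 1 ≤ n ∧ (∀ d ∈ (sy u).support, d 0 + d 1 ≤ n) ∧ homogeneousComponent n (sy u) ≠ 0 := by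
  have h0 : sy u ≠ 0 := by
    intro h
    apply hu 0
    rw [map_zero]
    exact sy.injective (by rw [h, map_zero])
  have hsum : ∀ d : Fin 2 →₀ ℕ, (d.sum fun _ e => e) = d 0 + d 1 := by
    intro d
    rw [Finsupp.sum_fintype _ _ (fun _ => rfl), Fin.sum_univ_two]
  refine ⟨(sy u).totalDegree, ?_, ?_, ?_⟩
  · by_contra hlt
    have hz : (sy u).totalDegree = 0 := by omega
    rw [totalDegree_eq_zero_iff_eq_C] at hz
    apply hu (coeff 0 (sy u))
    apply sy.injective
    rw [symC S]
    exact hz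
  · intro d hd
    have := le_totalDegree hd
    rwa [hsum] at this
  · obtain ⟨d, hd, hd'⟩ := Finset.exists_mem_eq_sup _ (support_nonempty.2 h0)
      (fun m : Fin 2 →₀ ℕ => m.sum fun _ e => e)
    intro hz
    have h1 := congrArg (coeff d) hz
    rw [← hc_eq, coeff_weightedHomogeneousComponent, coeff_zero, if_pos] at h1
    · exact (mem_support_iff.1 hd) h1
    · rw [weight_eq]
      simp only [mul_one]
      rw [totalDegree, hd', hsum]

/-- a scalar element is not possible when a higher component is nonzero -/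
theorem nonscalar_of (S : Std sy br x y) (u : A) (n : ℕ) (hn : 1 ≤ n)
    (h : homogeneousComponent n (sy u) ≠ 0) (c : K) : u ≠ algebraMap K A c := by
  intro e
  apply h
  rw [e, symC S]
  ext d
  rw [← hc_eq, coeff_weightedHomogeneousComponent, weight_eq, coeff_zero, coeff_C]
  split_ifs with h1 h2
  · exfalso
    subst h2
    simp at h1
    omega
  · rfl
  · rfl

/-- effect of the elementary automorphisms on the top form -/
theorem elem_top (hS : SUB) (S : Std sy br x y) (lam : K) (r : ℕ) (hr : 1 ≤ r) (σ : A ≃ₐ[K] A)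
    (h0 : σ x = x) (h1 : σ y = y + lam • x ^ r) (c : A) (n : ℕ)
    (hc : c ∈ FilS sy (wt 1 r) n) :
    σ c ∈ FilS sy (wt 1 r) n ∧
      weightedHomogeneousComponent (wt 1 r) n (sy (σ c)) =
        aeval ![X 0, X 1 + C lam * X 0 ^ r] (weightedHomogeneousComponent (wt 1 r) n (sy c)) := by
  have hw : ∀ i, 0 < wt 1 r i := by
    intro i
    fin_cases i
    · exact Nat.one_pos
    · exact hr
  have e0 : sy (σ x) = X 0 := by rw [h0, symx S]
  have e1 : sy (σ y) = X 1 + C lam * X 0 ^ r := by
    rw [h1, map_add, symy S, map_smul, symxp S, smul_eq_C_mul]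
  have H0 : IsWeightedHomogeneous (wt 1 r) (X 0 : MvPolynomial (Fin 2) K) (wt 1 r 0) :=
    isWeightedHomogeneous_X K (wt 1 r) 0
  have H1 : IsWeightedHomogeneous (wt 1 r) (X 1 + C lam * X 0 ^ r : MvPolynomial (Fin 2) K)
      (wt 1 r 1) := by
    refine (isWeightedHomogeneous_X K (wt 1 r) 1).add ?_
    have := (isWeightedHomogeneous_C (wt 1 r) lam).mul
      ((isWeightedHomogeneous_X K (wt 1 r) (0 : Fin 2)).pow r)
    simpa [wt] using this
  have f : ∀ (u : A) (P : MvPolynomial (Fin 2) K) (l : ℕ), sy u = P →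
      IsWeightedHomogeneous (wt 1 r) P l → u ∈ FilS sy (wt 1 r) l ∧ topS sy (wt 1 r) l u = P := by
    intro u P l hu hP
    refine ⟨mem_fil.2 fun d hd => ?_, ?_⟩
    · rw [hu] at hd
      have := hP (mem_support_iff.1 hd)
      rw [weight_eq] at this
      omega
    · rw [topS, hu]
      exact weightedHomogeneousComponent_eq_self hP
  obtain ⟨a0, b0⟩ := f _ _ _ e0 H0
  obtain ⟨a1, b1⟩ := f _ _ _ e1 H1
  have := hS K A sy br x y S (wt 1 r) hw (σ : A →ₐ[K] A) (wt 1 r) a0 a1 n c hc
  refine ⟨this.1, ?_⟩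
  have h2 := this.2
  change topS sy (wt 1 r) n (σ c) = aeval ![topS sy (wt 1 r) (wt 1 r 0) (σ x),
    topS sy (wt 1 r) (wt 1 r 1) (σ y)] (topS sy (wt 1 r) n c) at h2
  rw [b0, b1] at h2
  exact h2

theorem wt11 : wt 1 1 = fun _ => 1 := by
  ext i
  fin_cases i <;> rfl

theorem elem_hc (hS : SUB) (S : Std sy br x y) (lam : K) (σ : A ≃ₐ[K] A)
    (h0 : σ x = x) (h1 : σ y = y + lam • x ^ 1) (c : A) (n : ℕ)
    (hc : ∀ d ∈ (sy c).support, d 0 + d 1 ≤ n) :
    (∀ d ∈ (sy (σ c)).support, d 0 + d 1 ≤ n) ∧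
      homogeneousComponent n (sy (σ c)) =
        aeval ![X 0, X 1 + C lam * X 0] (homogeneousComponent n (sy c)) := by
  have h := elem_top hS S lam 1 le_rfl σ h0 h1 c n (mem_fil.2 (by
    rw [wt11]; simpa using hc))
  rw [mem_fil, wt11, pow_one, hc_eq, hc_eq] at h
  simpa using h

theorem swap_hc (hS : SUB) (S : Std sy br x y) (σ : A ≃ₐ[K] A)
    (h0 : σ x = y) (h1 : σ y = -x) (c : A) (n : ℕ)
    (hc : ∀ d ∈ (sy c).support, d 0 + d 1 ≤ n) :
    (∀ d ∈ (sy (σ c)).support, d 0 + d 1 ≤ n) ∧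
      homogeneousComponent n (sy (σ c)) =
        aeval ![X 1, -X 0] (homogeneousComponent n (sy c)) := by
  have e0 : sy (σ x) = X 1 := by rw [h0, symy S]
  have e1 : sy (σ y) = - X 0 := by rw [h1, map_neg, symx S]
  have H0 : IsWeightedHomogeneous (fun _ : Fin 2 => 1) (X 1 : MvPolynomial (Fin 2) K) 1 :=
    isWeightedHomogeneous_X K _ 1
  have H1 : IsWeightedHomogeneous (fun _ : Fin 2 => 1) (- X 0 : MvPolynomial (Fin 2) K) 1 :=
    (weightedHomogeneousSubmodule K _ 1).neg_mem (isWeightedHomogeneous_X K _ 0)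
  have f : ∀ (u : A) (P : MvPolynomial (Fin 2) K) (l : ℕ), sy u = P →
      IsWeightedHomogeneous (fun _ : Fin 2 => 1) P l →
      u ∈ FilS sy (fun _ => 1) l ∧ topS sy (fun _ => 1) l u = P := by
    intro u P l hu hP
    refine ⟨mem_fil.2 fun d hd => ?_, ?_⟩
    · rw [hu] at hd
      have := hP (mem_support_iff.1 hd)
      rw [weight_eq] at this
      omega
    · rw [topS, hu]
      exact weightedHomogeneousComponent_eq_self hP
  obtain ⟨a0, b0⟩ := f _ _ _ e0 H0
  obtain ⟨a1, b1⟩ := f _ _ _ e1 H1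
  have := hS K A sy br x y S (fun _ => 1) (by simp) (σ : A →ₐ[K] A) (fun _ => 1) a0 a1 n c
    (mem_fil.2 (by simpa using hc))
  rw [mem_fil] at this
  refine ⟨by simpa using this.1, ?_⟩
  have h2 := this.2
  change topS sy (fun _ => 1) n (σ c) = aeval ![topS sy (fun _ => 1) 1 (σ x),
    topS sy (fun _ => 1) 1 (σ y)] (topS sy (fun _ => 1) n c) at h2
  rw [b0, b1] at h2
  exact h2

/-- an element whose symbol only involves `X` is a polynomial in `x` -/
theorem poly_of (S : Std sy br x y) (c : A) (n : ℕ) (hn : 1 ≤ n)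
    (hc : ∀ d ∈ (sy c).support, d 0 + d 1 ≤ n) (c0 : K) (hc0 : c0 ≠ 0)
    (htop : homogeneousComponent n (sy c) = C c0 * X 0 ^ n)
    (h1 : ∀ d ∈ (sy c).support, d 1 = 0) : NF sy x c := by
  let p : Polynomial K := ∑ i ∈ Finset.range (n + 1),
    Polynomial.monomial i (coeff (Finsupp.single 0 i) (sy c))
  have hp : ∀ i, p.coeff i = if i < n + 1 then coeff (Finsupp.single 0 i) (sy c) else 0 := by
    intro i
    simp only [p, Polynomial.finsetSum_coeff, Polynomial.coeff_monomial]
    rw [Finset.sum_ite_eq']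
    simp only [Finset.mem_range]
  refine NF.poly p ?_ ?_
  · by_contra hlt
    have h2 : p.coeff n = 0 := Polynomial.coeff_eq_zero_of_natDegree_lt (by omega)
    rw [hp, if_pos (Nat.lt_succ_self n)] at h2
    have h3 := congrArg (coeff (Finsupp.single 0 n)) htop
    rw [← hc_eq, coeff_weightedHomogeneousComponent, weight_eq, if_pos (by simp), h2,
      coeff_C_mul, coeff_X_pow, if_pos rfl, mul_one] at h3
    exact hc0 h3.symm
  · apply sy.injective
    have e1 : Polynomial.aeval x p = ∑ i ∈ Finset.range (n + 1),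
        (coeff (Finsupp.single 0 i) (sy c)) • x ^ i := by
      simp only [p, map_sum, Polynomial.aeval_monomial, Algebra.smul_def]
    rw [e1, map_sum]
    simp only [map_smul, symxp S]
    ext d
    rw [coeff_sum]
    by_cases hd : d ∈ (sy c).support
    · have h2 := h1 d hd
      have h3 := hc d hd
      have hd' : d = Finsupp.single 0 (d 0) := by
        ext i
        fin_cases i
        · simp
        · simpa using h2
      rw [Finset.sum_eq_single (d 0)]
      · rw [coeff_smul, coeff_X_pow, if_pos hd'.symm, smul_eq_mul, mul_one, ← hd']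
      · intro i _ hi
        rw [coeff_smul, coeff_X_pow, if_neg, smul_zero]
        intro h
        apply hi
        rw [← h]; simp
      · intro h
        exact absurd (Finset.mem_range.2 (by omega)) h
    · have h2 : coeff d (sy c) = 0 := notMem_support_iff.1 hd
      rw [h2, Finset.sum_eq_zero]
      intro i _
      rw [coeff_smul, coeff_X_pow]
      split_ifs with h3
      · rw [h3, h2, zero_smul]
      · rw [smul_zero]

end

end Pool.Agent.H193R5.EG
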