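import Pool.Agent.H193R5.EG.Main

/-! # Sequences of endomorphisms and intersections of images -/

set_option autoImplicit false
set_option linter.unusedSectionVars false

open MvPolynomial Pool.Agent.H88R2.DC

namespace Pool.Agent.H193R5.EG

section
variable {K A : Type} [Field K] [CharZero K] [Ring A] [Algebra K A]
  {sy : A ≃ₗ[K] MvPolynomial (Fin 2) K} {br : A →ₗ[K] A →ₗ[K] A} {x y : A}

theorem chain_seq (φ Φ : ℕ → (A →ₐ[K] A)) (hφ : ∀ m, Endo br (φ m))
    (hns : ∀ m, ¬ Function.Surjective (φ m)) (h0 : Φ 0 = AlgHom.id K A)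
    (hs : ∀ m, Φ (m + 1) = (Φ m).comp (φ m)) (m : ℕ) : Chain br m (Φ m) := by
  induction m with
  | zero =>
    rw [h0]
    exact Chain.zero _ ⟨Function.injective_id, 1, one_ne_zero, fun u v => by simp⟩
  | succ m ih =>
    rw [hs]
    exact Chain.succ m _ _ ih (hφ m) (hns m)

theorem exists_bound (sy : A ≃ₗ[K] MvPolynomial (Fin 2) K) (v : A) :
    v ∈ FilS sy (fun _ => 1) (sy v).totalDegree := by
  refine mem_fil.2 fun d hd => ?_
  have := le_totalDegree hd
  rw [Finsupp.sum_fintype _ _ (fun _ => rfl), Fin.sum_univ_two] at this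
  simpa using this

theorem inter_scalar (Φ : ℕ → (A →ₐ[K] A))
    (hg : ∀ (m : ℕ) (a : A), (∀ c : K, a ≠ algebraMap K A c) → ∀ N,
      Φ m a ∈ FilS sy (fun _ => 1) N → 2 ^ m ≤ 18 * N ^ 2) : (⨅ m, (Φ m).range) = ⊥ := by
  rw [eq_bot_iff]
  intro b hb
  rw [Algebra.mem_iInf] at hb
  rw [Algebra.mem_bot]
  by_contra hcon
  set N := (sy b).totalDegree with hN
  obtain ⟨a, ha⟩ := hb (18 * N ^ 2)
  have ha' : Φ (18 * N ^ 2) a = b := ha
  have h1 := hg (18 * N ^ 2) a (fun c hc => hcon ⟨c, by rw [← ha', hc, AlgHom.commutes]⟩) N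
    (by rw [ha']; exact exists_bound sy b)
  have h2 : 18 * N ^ 2 < 2 ^ (18 * N ^ 2) := Nat.lt_two_pow_self
  omega

end

end Pool.Agent.H193R5.EG
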