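import Pool.Agent.H88R2.DC.Defs3

/-!
# Degree growth of ALL nonconstant elements (Weyl algebra / plane Keller maps): statements

`A` is the first Weyl algebra (`br` = commutator) or `K[X, Y]` (`br` = Poisson bracket).
-/

set_option autoImplicit false

open MvPolynomial Pool.Agent.H88R2.DC

namespace Pool.Agent.H193R5.EG

/-- weights `(a, b)` -/
def wt (a b : ℕ) : Fin 2 → ℕ := ![a, b]

/-- the system together with its elementary automorphisms -/
structure Std {K A : Type} [Field K] [Ring A] [Algebra K A]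
    (sy : A ≃ₗ[K] MvPolynomial (Fin 2) K) (br : A →ₗ[K] A →ₗ[K] A) (x y : A) : Prop where
  sys : Sys sy br
  symb : ∀ i j : ℕ, sy (x ^ i * y ^ j) = X 0 ^ i * X 1 ^ j
  brx : ∀ v : A, sy (br x v) = pderiv 1 (sy v)
  elem : ∀ (c : K) (r : ℕ), ∃ σ : A ≃ₐ[K] A, σ x = x ∧ σ y = y + c • x ^ r ∧
    ∀ u v, br (σ u) (σ v) = σ (br u v)
  swap : ∃ σ : A ≃ₐ[K] A, σ x = y ∧ σ y = -x ∧ ∀ u v, br (σ u) (σ v) = σ (br u v)

/-- the element `a` has a partner `u` which is not torsion -/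
def NT {K A : Type} [Field K] [Ring A] [Algebra K A] (br : A →ₗ[K] A →ₗ[K] A) (a : A) : Prop :=
  ∃ u : A, IndA br a (fun _ : Fin 1 => u)

/-- TASK LEMM: a factor of small multiplicity of a leading form gives a non-torsion partner -/
def LEMM : Prop :=
  ∀ (K A : Type) [Field K] [CharZero K] [Ring A] [Algebra K A]
    (sy : A ≃ₗ[K] MvPolynomial (Fin 2) K) (br : A →ₗ[K] A →ₗ[K] A) (_ : Sys sy br)
    (w : Fin 2 → ℕ) (_ : ∀ i, 0 < w i) (a : A) (n : ℕ) (_ : a ∈ FilS sy w n)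
    (q : MvPolynomial (Fin 2) K) (_ : Irreducible q) (m : ℕ) (_ : 1 ≤ m)
    (_ : q ^ m ∣ topS sy w n a) (_ : ¬ q ^ (m + 1) ∣ topS sy w n a)
    (_ : m * (w 0 + w 1) < n), NT br a

/-- TASK SUB: substitution: leading forms of images under an algebra homomorphism -/
def SUB : Prop :=
  ∀ (K A : Type) [Field K] [CharZero K] [Ring A] [Algebra K A]
    (sy : A ≃ₗ[K] MvPolynomial (Fin 2) K) (br : A →ₗ[K] A →ₗ[K] A) (x y : A)
    (_ : Std sy br x y) (w : Fin 2 → ℕ) (_ : ∀ i, 0 < w i) (Φ : A →ₐ[K] A) (d : Fin 2 → ℕ)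
    (_ : Φ x ∈ FilS sy w (d 0)) (_ : Φ y ∈ FilS sy w (d 1)) (m : ℕ) (u : A)
    (_ : u ∈ FilS sy d m),
    Φ u ∈ FilS sy w m ∧
      topS sy w m (Φ u) = aeval ![topS sy w (d 0) (Φ x), topS sy w (d 1) (Φ y)] (topS sy d m u)

/-- all irreducible factors of all leading forms have large multiplicity -/
def Big {K : Type} [Field K] (P : MvPolynomial (Fin 2) K) : Prop :=
  ∀ (w : Fin 2 → ℕ) (_ : ∀ i, 0 < w i) (n : ℕ) (_ : ∀ d ∈ P.support, d 0 * w 0 + d 1 * w 1 ≤ n)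
    (q : MvPolynomial (Fin 2) K) (_ : Irreducible q) (m : ℕ) (_ : 1 ≤ m)
    (_ : q ^ m ∣ weightedHomogeneousComponent w n P)
    (_ : ¬ q ^ (m + 1) ∣ weightedHomogeneousComponent w n P), n ≤ m * (w 0 + w 1)

/-- TASK FORM: binary forms all of whose irreducible factors have multiplicity at least half of
the degree -/
def FORM : Prop :=
  ∀ (K : Type) [Field K] [CharZero K] (f : MvPolynomial (Fin 2) K) (n : ℕ) (_ : 1 ≤ n)
    (_ : f.IsHomogeneous n) (_ : f ≠ 0)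
    (_ : ∀ (q : MvPolynomial (Fin 2) K) (m : ℕ), Irreducible q → 1 ≤ m → q ^ m ∣ f →
      ¬ q ^ (m + 1) ∣ f → n ≤ 2 * m),
    (∃ (c a b : K), c ≠ 0 ∧ (a ≠ 0 ∨ b ≠ 0) ∧ f = C c * (C a * X 0 + C b * X 1) ^ n) ∨
    (∃ (k : ℕ) (c a b a' b' : K), n = 2 * k ∧ c ≠ 0 ∧ a * b' - b * a' ≠ 0 ∧
      f = C c * ((C a * X 0 + C b * X 1) * (C a' * X 0 + C b' * X 1)) ^ k) ∨
    (∃ (k : ℕ) (c : K) (q : MvPolynomial (Fin 2) K), n = 2 * k ∧ c ≠ 0 ∧ Irreducible q ∧
      q.IsHomogeneous 2 ∧ f = C c * q ^ k)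

/-- TASK RONE: leading form `c X ^ n`: either only `X` occurs, or the degree can be lowered by
`Y ↦ Y + lam X ^ r` -/
def RONE : Prop :=
  ∀ (K : Type) [Field K] [CharZero K] (P : MvPolynomial (Fin 2) K) (n : ℕ) (_ : 1 ≤ n)
    (_ : Big P) (_ : ∀ d ∈ P.support, d 0 + d 1 ≤ n) (c : K) (_ : c ≠ 0)
    (_ : homogeneousComponent n P = C c * X 0 ^ n),
    (∀ d ∈ P.support, d 1 = 0) ∨
    (∃ (r : ℕ) (lam : K), 2 ≤ r ∧ (∀ d ∈ P.support, d 0 + d 1 * r ≤ n) ∧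
      aeval ![X 0, C lam * X 0 ^ r] (weightedHomogeneousComponent (wt 1 r) n P) =
        (0 : MvPolynomial (Fin 2) K))

/-- TASK RTWO: leading form `c (X Y) ^ k`: the support is contained in the square `[0, k]²` -/
def RTWO : Prop :=
  ∀ (K : Type) [Field K] [CharZero K] (P : MvPolynomial (Fin 2) K) (k : ℕ) (_ : 1 ≤ k)
    (_ : Big P) (_ : ∀ d ∈ P.support, d 0 + d 1 ≤ 2 * k) (c : K) (_ : c ≠ 0)
    (_ : homogeneousComponent (2 * k) P = C c * (X 0 * X 1) ^ k),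
    ∀ d ∈ P.support, d 0 ≤ k ∧ d 1 ≤ k

/-- TASK ANI: an irreducible quadratic form does not vanish on nonzero pairs of polynomials -/
def ANI : Prop :=
  ∀ (K : Type) [Field K] [CharZero K] (q : MvPolynomial (Fin 2) K) (_ : Irreducible q)
    (_ : q.IsHomogeneous 2) (U V : MvPolynomial (Fin 2) K) (_ : U ≠ 0 ∨ V ≠ 0),
    aeval ![U, V] q ≠ 0

/-- TASK STDP: the polynomial ring with the Poisson bracket -/
noncomputable def pbL (K : Type) [Field K] :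
    MvPolynomial (Fin 2) K →ₗ[K] MvPolynomial (Fin 2) K →ₗ[K] MvPolynomial (Fin 2) K :=
  (LinearMap.mul K (MvPolynomial (Fin 2) K)).compl₁₂ (pderiv 0).toLinearMap
      (pderiv 1).toLinearMap -
    (LinearMap.mul K (MvPolynomial (Fin 2) K)).compl₁₂ (pderiv 1).toLinearMap
      (pderiv 0).toLinearMap

def STDP : Prop :=
  ∀ (K : Type) [Field K] [CharZero K],
    Std (LinearEquiv.refl K (MvPolynomial (Fin 2) K)) (pbL K) (X 0) (X 1)

/-- TASK KELP: Keller's theorem (birational Keller maps) in the form needed -/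
def KELP : Prop :=
  ∀ (K : Type) [Field K] [CharZero K]
    (φ : MvPolynomial (Fin 2) K →ₐ[K] MvPolynomial (Fin 2) K) (κ : K) (_ : κ ≠ 0)
    (_ : pb (φ (X 0)) (φ (X 1)) = C κ)
    (_ : ∀ u, ∃ s c, s ≠ 0 ∧ φ s * u = φ c), Function.Surjective φ

end Pool.Agent.H193R5.EG
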