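import Pool.Agent.H193R5.EG.Stmts
set_option autoImplicit false
open MvPolynomial

namespace Pool.Agent.H193R5.EG.ANIT

theorem form2 {K : Type} [Field K] (q : MvPolynomial (Fin 2) K) (h : q.IsHomogeneous 2) :
    ∃ al be ga : K, q = C al * X 0 ^ 2 + C be * (X 0 * X 1) + C ga * X 1 ^ 2 := by
  classical
  refine ⟨coeff (Finsupp.single 0 2) q, coeff (Finsupp.single 0 1 + Finsupp.single 1 1) q,
    coeff (Finsupp.single 1 2) q, ?_⟩
  have h1 : (X 0 : MvPolynomial (Fin 2) K) ^ 2 = monomial (Finsupp.single 0 2) 1 := by
    rw [X_pow_eq_monomial]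
  have h2 : (X 1 : MvPolynomial (Fin 2) K) ^ 2 = monomial (Finsupp.single 1 2) 1 := by
    rw [X_pow_eq_monomial]
  have h3 : (X 0 * X 1 : MvPolynomial (Fin 2) K) =
      monomial (Finsupp.single 0 1 + Finsupp.single 1 1) 1 := by
    simp [X, monomial_mul]
  rw [h1, h2, h3]
  ext d
  simp only [coeff_add, coeff_C_mul, coeff_monomial]
  by_cases hd : coeff d q = 0
  · rw [hd]
    have e1 : ∀ m : Fin 2 →₀ ℕ, coeff m q * (if m = d then (1:K) else 0) = 0 := by
      intro m
      split_ifs with hm
      · rw [hm, hd]; simp
      · simp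
    rw [e1, e1, e1]; simp
  · have hdeg : d 0 + d 1 = 2 := by
      have := h hd
      simpa [Finsupp.weight_apply, Finsupp.sum_fintype] using this
    have hcase : d = Finsupp.single 0 2 ∨ d = Finsupp.single 0 1 + Finsupp.single 1 1 ∨
        d = Finsupp.single 1 2 := by
      have : d 0 = 2 ∨ d 0 = 1 ∨ d 0 = 0 := by omega
      rcases this with h0 | h0 | h0
      · left
        ext i; fin_cases i
        · simp [h0]
        · simp; omega
      · right; left
        ext i; fin_cases i
        · simp [h0]
        · simp; omega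
      · right; right
        ext i; fin_cases i
        · simp [h0]
        · simp; omega
    have n1 : (Finsupp.single 0 2 : Fin 2 →₀ ℕ) ≠ Finsupp.single 0 1 + Finsupp.single 1 1 := by
      intro hh; have := DFunLike.congr_fun hh 0; simp at this
    have n2 : (Finsupp.single 0 2 : Fin 2 →₀ ℕ) ≠ Finsupp.single 1 2 := by
      intro hh; have := DFunLike.congr_fun hh 0; simp at this
    have n3 : (Finsupp.single 1 2 : Fin 2 →₀ ℕ) ≠ Finsupp.single 0 1 + Finsupp.single 1 1 := by
      intro hh; have := DFunLike.congr_fun hh 0; simp at this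
    rcases hcase with rfl | rfl | rfl
    · rw [if_pos rfl, if_neg n1.symm, if_neg n2.symm]; ring
    · rw [if_neg n1, if_pos rfl, if_neg n3]; ring
    · rw [if_neg n2, if_neg n3.symm, if_pos rfl]; ring

theorem not_irr {K : Type} [Field K] (a b c d : K) :
    ¬ Irreducible ((C a * X 0 + C b * X 1) * (C c * X 0 + C d * X 1) : MvPolynomial (Fin 2) K) := by
  intro h
  have key : ∀ a b : K, ¬ IsUnit (C a * X 0 + C b * X 1 : MvPolynomial (Fin 2) K) := by
    intro a b hu
    have := hu.map (eval (0 : Fin 2 → K))
    simp at this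
  rcases h.isUnit_or_isUnit rfl with h1 | h1
  · exact key _ _ h1
  · exact key _ _ h1

theorem ani {K : Type} [Field K] [CharZero K] (q : MvPolynomial (Fin 2) K) (hq : Irreducible q)
    (hh : q.IsHomogeneous 2) (U V : MvPolynomial (Fin 2) K) (hUV : U ≠ 0 ∨ V ≠ 0) :
    aeval ![U, V] q ≠ 0 := by
  intro h0
  obtain ⟨al, be, ga, rfl⟩ := form2 q hh
  simp only [map_add, map_mul, map_pow, aeval_X, aeval_C, Matrix.cons_val_zero,
    Matrix.cons_val_one, algebraMap_eq] at h0
  by_cases hV : V = 0
  · subst hV
    have hU : U ≠ 0 := by simpa using hUV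
    have : C al * U ^ 2 = 0 := by simpa using h0
    have hal : al = 0 := by
      rcases mul_eq_zero.1 this with h1 | h1
      · simpa using h1
      · exact absurd (pow_eq_zero_iff (two_ne_zero) |>.1 h1) hU
    subst hal
    apply not_irr be ga 0 1
    convert hq using 1
    simp; ring
  · have : ∃ p : Fin 2 → K, eval p V ≠ 0 := by
      by_contra hcon
      push Not at hcon
      apply hV
      apply MvPolynomial.funext
      intro p
      rw [hcon p]; simp
    obtain ⟨p, hp⟩ := this
    have h1 := congrArg (eval p) h0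
    simp only [map_add, map_mul, map_pow, eval_C, map_zero] at h1
    set u := eval p U with hu
    set v := eval p V with hv
    have h2 : al * (u / v) ^ 2 + be * (u / v) + ga = 0 := by
      field_simp
      linear_combination h1
    apply not_irr 1 (-(u / v)) al (be + al * (u / v))
    convert hq using 1
    have h3 : ga = - (al * (u / v) ^ 2 + be * (u / v)) := by linear_combination h2
    rw [h3]
    simp only [map_neg, map_add, map_mul, map_pow, map_one]
    ring

end Pool.Agent.H193R5.EG.ANIT

namespace Pool.Agent.H193R5.EG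

theorem ani_holds : ANI := fun _ _ _ q hq hh U V hUV => ANIT.ani q hq hh U V hUV

end Pool.Agent.H193R5.EG
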