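import Pool.Agent.H193R5.EG.Stmts

/-!
# Task STDP: the polynomial ring with the Poisson bracket is a standard system (helper349)
-/

set_option autoImplicit false

open MvPolynomial Pool.Agent.H88R2.DC

namespace Pool.Agent.H193R5.EG.STDPaux

variable {K : Type} [Field K]

theorem weight_two (w : Fin 2 → ℕ) (d : Fin 2 →₀ ℕ) :
    Finsupp.weight w d = d 0 * w 0 + d 1 * w 1 := by
  rw [Finsupp.weight_apply, Finsupp.sum_fintype _ _ (by simp)]
  simp [Fin.sum_univ_two]

theorem pbL_apply (u v : MvPolynomial (Fin 2) K) : pbL K u v = pb u v := by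
  simp [pbL, pb]

theorem mem_fil (w : Fin 2 → ℕ) (m : ℕ) (u : MvPolynomial (Fin 2) K) :
    u ∈ FilS (LinearEquiv.refl K (MvPolynomial (Fin 2) K)) w m ↔
      u ∈ Submodule.span K
        ((fun s => monomial s (1 : K)) '' {d : Fin 2 →₀ ℕ | Finsupp.weight w d ≤ m}) := by
  have h : {d : Fin 2 →₀ ℕ | d 0 * w 0 + d 1 * w 1 ≤ m} =
      {d : Fin 2 →₀ ℕ | Finsupp.weight w d ≤ m} := by
    ext d
    rw [Set.mem_ofPred_eq, Set.mem_ofPred_eq, weight_two]
  unfold FilS
  rw [Submodule.mem_comap, h, restrictSupport_eq_span]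
  rfl

theorem mono_mem {w : Fin 2 → ℕ} {m : ℕ} {d : Fin 2 →₀ ℕ} (c : K) (h : Finsupp.weight w d ≤ m) :
    monomial d c ∈ FilS (LinearEquiv.refl K (MvPolynomial (Fin 2) K)) w m := by
  rw [mem_fil]
  have h1 : monomial d c = c • monomial d (1 : K) := by
    rw [smul_monomial, smul_eq_mul, mul_one]
  rw [h1]
  exact Submodule.smul_mem _ _ (Submodule.subset_span ⟨d, h, rfl⟩)

theorem whc_mono (w : Fin 2 → ℕ) (n : ℕ) (d : Fin 2 →₀ ℕ) (c : K) :
    weightedHomogeneousComponent w n (monomial d c) =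
      if Finsupp.weight w d = n then monomial d c else 0 := by
  classical
  ext e
  rw [coeff_weightedHomogeneousComponent, coeff_monomial]
  by_cases hde : d = e
  · subst hde
    split_ifs <;> simp_all
  · rw [if_neg hde]
    split_ifs with h1 h2
    · rw [coeff_monomial, if_neg hde]
    · simp
    · rw [coeff_monomial, if_neg hde]
    · simp

/-- bilinear induction -/
theorem bil {w : Fin 2 → ℕ} {m l : ℕ} (p : MvPolynomial (Fin 2) K → MvPolynomial (Fin 2) K → Prop)
    (h : ∀ d e, Finsupp.weight w d ≤ m → Finsupp.weight w e ≤ l →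
      p (monomial d 1) (monomial e 1))
    (hzl : ∀ v, p 0 v) (hzr : ∀ u, p u 0)
    (hal : ∀ u u' v, p u v → p u' v → p (u + u') v)
    (har : ∀ u v v', p u v → p u v' → p u (v + v'))
    (hsl : ∀ (c : K) u v, p u v → p (c • u) v) (hsr : ∀ (c : K) u v, p u v → p u (c • v))
    {u v : MvPolynomial (Fin 2) K}
    (hu : u ∈ FilS (LinearEquiv.refl K (MvPolynomial (Fin 2) K)) w m)
    (hv : v ∈ FilS (LinearEquiv.refl K (MvPolynomial (Fin 2) K)) w l) : p u v := by
  rw [mem_fil] at hu hv
  induction hu using Submodule.span_induction with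
  | mem x hx =>
    obtain ⟨d, hd, rfl⟩ := hx
    induction hv using Submodule.span_induction with
    | mem y hy =>
      obtain ⟨e, he, rfl⟩ := hy
      exact h d e hd he
    | zero => exact hzr _
    | add y y' _ _ h1 h2 => exact har _ _ _ h1 h2
    | smul c y _ h1 => exact hsr _ _ _ h1
  | zero => exact hzl _
  | add x x' _ _ h1 h2 => exact hal _ _ _ h1 h2
  | smul c x _ h1 => exact hsl _ _ _ h1

theorem mul_part (w : Fin 2 → ℕ) (m l : ℕ) (u v : MvPolynomial (Fin 2) K)
    (hu : u ∈ FilS (LinearEquiv.refl K (MvPolynomial (Fin 2) K)) w m)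
    (hv : v ∈ FilS (LinearEquiv.refl K (MvPolynomial (Fin 2) K)) w l) :
    u * v ∈ FilS (LinearEquiv.refl K (MvPolynomial (Fin 2) K)) w (m + l) ∧
      weightedHomogeneousComponent w (m + l) (u * v) =
        weightedHomogeneousComponent w m u * weightedHomogeneousComponent w l v := by
  refine bil (p := fun u v =>
    u * v ∈ FilS (LinearEquiv.refl K (MvPolynomial (Fin 2) K)) w (m + l) ∧
      weightedHomogeneousComponent w (m + l) (u * v) =
        weightedHomogeneousComponent w m u * weightedHomogeneousComponent w l v)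
    ?_ ?_ ?_ ?_ ?_ ?_ ?_ hu hv
  · intro d e hd he
    rw [monomial_mul, one_mul]
    refine ⟨mono_mem _ (by rw [map_add]; omega), ?_⟩
    rw [whc_mono, whc_mono, whc_mono, map_add]
    by_cases h1 : Finsupp.weight w d = m
    · by_cases h2 : Finsupp.weight w e = l
      · rw [if_pos (by omega), if_pos h1, if_pos h2, monomial_mul, one_mul]
      · rw [if_neg (by omega), if_neg h2, mul_zero]
    · rw [if_neg (by omega), if_neg h1, zero_mul]
  · intro v
    simp
  · intro u
    simp
  · rintro u u' v ⟨h1, h2⟩ ⟨h3, h4⟩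
    rw [add_mul, map_add, map_add, add_mul, h2, h4]
    exact ⟨Submodule.add_mem _ h1 h3, rfl⟩
  · rintro u v v' ⟨h1, h2⟩ ⟨h3, h4⟩
    rw [mul_add, map_add, map_add, mul_add, h2, h4]
    exact ⟨Submodule.add_mem _ h1 h3, rfl⟩
  · rintro c u v ⟨h1, h2⟩
    rw [smul_mul_assoc, map_smul, map_smul, smul_mul_assoc, h2]
    exact ⟨Submodule.smul_mem _ _ h1, rfl⟩
  · rintro c u v ⟨h1, h2⟩
    rw [mul_smul_comm, map_smul, map_smul, mul_smul_comm, h2]
    exact ⟨Submodule.smul_mem _ _ h1, rfl⟩

theorem wt_sub (w : Fin 2 → ℕ) (i : Fin 2) (d : Fin 2 →₀ ℕ) (h : d i ≠ 0) :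
    Finsupp.weight w (d - Finsupp.single i 1) + w i = Finsupp.weight w d := by
  have h1 : d = (d - Finsupp.single i 1) + Finsupp.single i 1 := by
    rw [tsub_add_cancel_of_le]
    rw [Finsupp.single_le_iff]
    omega
  conv_rhs => rw [h1]
  rw [map_add, Finsupp.weight_single, smul_eq_mul, one_mul]

theorem wt_ge (w : Fin 2 → ℕ) (i : Fin 2) (d : Fin 2 →₀ ℕ) (h : d i ≠ 0) :
    w i ≤ Finsupp.weight w d := by
  have := wt_sub w i d h
  omega

theorem pd_part (w : Fin 2 → ℕ) (i j : Fin 2) (m l N : ℕ) (hN : N + (w i + w j) = m + l)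
    (u v : MvPolynomial (Fin 2) K)
    (hu : u ∈ FilS (LinearEquiv.refl K (MvPolynomial (Fin 2) K)) w m)
    (hv : v ∈ FilS (LinearEquiv.refl K (MvPolynomial (Fin 2) K)) w l) :
    pderiv i u * pderiv j v ∈ FilS (LinearEquiv.refl K (MvPolynomial (Fin 2) K)) w N ∧
      weightedHomogeneousComponent w N (pderiv i u * pderiv j v) =
        pderiv i (weightedHomogeneousComponent w m u) *
          pderiv j (weightedHomogeneousComponent w l v) := by
  refine bil (p := fun u v =>
    pderiv i u * pderiv j v ∈ FilS (LinearEquiv.refl K (MvPolynomial (Fin 2) K)) w N ∧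
      weightedHomogeneousComponent w N (pderiv i u * pderiv j v) =
        pderiv i (weightedHomogeneousComponent w m u) *
          pderiv j (weightedHomogeneousComponent w l v))
    ?_ ?_ ?_ ?_ ?_ ?_ ?_ hu hv
  · intro d e hd he
    rw [whc_mono, whc_mono, pderiv_monomial, pderiv_monomial, monomial_mul]
    by_cases h1 : d i = 0
    · rw [h1]
      simp only [Nat.cast_zero, mul_zero, zero_mul, map_zero, Submodule.zero_mem, true_and]
      split_ifs <;> simp [pderiv_monomial, h1]
    by_cases h2 : e j = 0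
    · rw [h2]
      simp only [Nat.cast_zero, mul_zero, map_zero, Submodule.zero_mem, true_and]
      split_ifs <;> simp [pderiv_monomial, h2]
    have e1 := wt_sub w i d h1
    have e2 := wt_sub w j e h2
    refine ⟨mono_mem _ (by rw [map_add]; omega), ?_⟩
    rw [whc_mono, map_add]
    by_cases h3 : Finsupp.weight w d = m
    · by_cases h4 : Finsupp.weight w e = l
      · rw [if_pos (by omega), if_pos h3, if_pos h4, pderiv_monomial, pderiv_monomial,
          monomial_mul]
      · rw [if_neg (by omega), if_neg h4, map_zero, mul_zero]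
    · rw [if_neg (by omega), if_neg h3, map_zero, zero_mul]
  · intro v
    simp
  · intro u
    simp
  · rintro u u' v ⟨h1, h2⟩ ⟨h3, h4⟩
    rw [map_add, add_mul, map_add, map_add, map_add, add_mul, h2, h4]
    exact ⟨Submodule.add_mem _ h1 h3, rfl⟩
  · rintro u v v' ⟨h1, h2⟩ ⟨h3, h4⟩
    rw [map_add, mul_add, map_add, map_add, map_add, mul_add, h2, h4]
    exact ⟨Submodule.add_mem _ h1 h3, rfl⟩
  · rintro c u v ⟨h1, h2⟩
    rw [Derivation.map_smul, smul_mul_assoc, map_smul, map_smul, Derivation.map_smul,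
      smul_mul_assoc, h2]
    exact ⟨Submodule.smul_mem _ _ h1, rfl⟩
  · rintro c u v ⟨h1, h2⟩
    rw [Derivation.map_smul, mul_smul_comm, map_smul, map_smul, Derivation.map_smul,
      mul_smul_comm, h2]
    exact ⟨Submodule.smul_mem _ _ h1, rfl⟩

theorem pd_zero (w : Fin 2 → ℕ) (i j : Fin 2) (m l : ℕ) (hN : m + l < w i + w j)
    (u v : MvPolynomial (Fin 2) K)
    (hu : u ∈ FilS (LinearEquiv.refl K (MvPolynomial (Fin 2) K)) w m)
    (hv : v ∈ FilS (LinearEquiv.refl K (MvPolynomial (Fin 2) K)) w l) :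
    pderiv i u * pderiv j v = 0 := by
  refine bil (p := fun u v => pderiv i u * pderiv j v = 0) ?_ ?_ ?_ ?_ ?_ ?_ ?_ hu hv
  · intro d e hd he
    rw [pderiv_monomial, pderiv_monomial, monomial_mul]
    by_cases h1 : d i = 0
    · simp [h1]
    by_cases h2 : e j = 0
    · simp [h2]
    have e1 := wt_ge w i d h1
    have e2 := wt_ge w j e h2
    omega
  · intro v
    simp
  · intro u
    simp
  · intro u u' v h1 h2
    rw [map_add, add_mul, h1, h2, add_zero]
  · intro u v v' h1 h2
    rw [map_add, mul_add, h1, h2, add_zero]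
  · intro c u v h1
    rw [Derivation.map_smul, smul_mul_assoc, h1, smul_zero]
  · intro c u v h1
    rw [Derivation.map_smul, mul_smul_comm, h1, smul_zero]

theorem chain (σ : MvPolynomial (Fin 2) K →ₐ[K] MvPolynomial (Fin 2) K) (i : Fin 2)
    (u : MvPolynomial (Fin 2) K) :
    pderiv i (σ u) = σ (pderiv 0 u) * pderiv i (σ (X 0)) +
      σ (pderiv 1 u) * pderiv i (σ (X 1)) := by
  induction u using MvPolynomial.induction_on with
  | C a =>
    have h1 : σ (C a) = C a := σ.commutes a
    rw [h1]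
    simp
  | add p q hp hq =>
    rw [map_add, map_add, hp, hq]
    simp only [map_add]
    ring
  | mul_X p j hp =>
    rw [map_mul, Derivation.leibniz, Derivation.leibniz, Derivation.leibniz, hp]
    simp only [smul_eq_mul, map_add, map_mul]
    fin_cases j
    · simp [pderiv_X]
      ring
    · simp [pderiv_X]
      ring

theorem pb_alg (σ : MvPolynomial (Fin 2) K →ₐ[K] MvPolynomial (Fin 2) K)
    (h : pb (σ (X 0)) (σ (X 1)) = 1) (u v : MvPolynomial (Fin 2) K) :
    pb (σ u) (σ v) = σ (pb u v) := by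
  unfold pb at h ⊢
  rw [chain σ 0 u, chain σ 1 u, chain σ 0 v, chain σ 1 v, map_sub, map_mul, map_mul]
  linear_combination (σ (pderiv 0 u) * σ (pderiv 1 v) - σ (pderiv 1 u) * σ (pderiv 0 v)) * h

end Pool.Agent.H193R5.EG.STDPaux

namespace Pool.Agent.H193R5.EG

open STDPaux

theorem stdp_holds : STDP := by
  intro K _ _
  refine ⟨⟨rfl, ?_, ?_, ?_⟩, ?_, ?_, ?_, ?_⟩
  · intro w _ m l u v hu hv
    exact mul_part w m l u v hu hv
  · intro w _ m l N hN u v hu hv
    have h1 := pd_part w 0 1 m l N hN u v hu hv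
    have h2 := pd_part w 1 0 m l N (by omega) u v hu hv
    rw [pbL_apply]
    unfold pb topS
    refine ⟨Submodule.sub_mem _ h1.1 h2.1, ?_⟩
    rw [LinearEquiv.refl_apply, LinearEquiv.refl_apply, LinearEquiv.refl_apply, map_sub, h1.2,
      h2.2]
  · intro w _ m l hN u v hu hv
    rw [pbL_apply]
    unfold pb
    rw [pd_zero w 0 1 m l hN u v hu hv, pd_zero w 1 0 m l (by omega) u v hu hv, sub_zero]
  · intro i j
    rfl
  · intro v
    rw [pbL_apply]
    unfold pb
    simp [pderiv_X]
  · intro c r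
    have hr : ∀ (c : K), ∀ i : Fin 2,
        aeval (R := K) ![(X 0 : MvPolynomial (Fin 2) K), X 1 + c • X 0 ^ r] (X i) =
          ![(X 0 : MvPolynomial (Fin 2) K), X 1 + c • X 0 ^ r] i := fun c i => aeval_X _ i
    refine ⟨AlgEquiv.ofAlgHom (aeval ![X 0, X 1 + c • X 0 ^ r]) (aeval ![X 0, X 1 + (-c) • X 0 ^ r])
      ?_ ?_, ?_, ?_, ?_⟩
    · apply MvPolynomial.algHom_ext
      intro i
      fin_cases i
      · simp
      · simp
    · apply MvPolynomial.algHom_ext
      intro i
      fin_cases i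
      · simp
      · simp
    · simp
    · simp
    · intro u v
      rw [pbL_apply, pbL_apply]
      refine pb_alg (aeval ![X 0, X 1 + c • X 0 ^ r]) ?_ u v
      unfold pb
      simp [pderiv_X]
  · refine ⟨AlgEquiv.ofAlgHom (aeval ![X 1, -X 0]) (aeval ![-X 1, X 0]) ?_ ?_, ?_, ?_, ?_⟩
    · apply MvPolynomial.algHom_ext
      intro i
      fin_cases i
      · simp
      · simp
    · apply MvPolynomial.algHom_ext
      intro i
      fin_cases i
      · simp
      · simp
    · simp
    · simp
    · intro u v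
      rw [pbL_apply, pbL_apply]
      refine pb_alg (aeval ![X 1, -X 0]) ?_ u v
      unfold pb
      simp [pderiv_X]

end Pool.Agent.H193R5.EG
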