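import Pool.Agent.H193R5.EG.Stmts
import Pool.Agent.H88R2.DC.TLFT
import Pool.Agent.H88R2.DC.TGRO

/-! Task SUB of project H193-EG (written by helper880). -/

set_option autoImplicit false

open MvPolynomial Pool.Agent.H88R2.DC Pool.Agent.H88R2.DC.LFTAux Pool.Agent.H88R2.DC.GROaux

namespace Pool.Agent.H193R5.EG

theorem monomial_two {K : Type} [Field K] (e : Fin 2 →₀ ℕ) (c : K) :
    (monomial e c : MvPolynomial (Fin 2) K) = c • (X 0 ^ (e 0) * X 1 ^ (e 1)) := by
  rw [monomial_eq, Finsupp.prod_fintype _ _ (by simp), Fin.prod_univ_two, smul_eq_C_mul]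

theorem sub_expand {K A : Type} [Field K] [Ring A] [Algebra K A]
    {sy : A ≃ₗ[K] MvPolynomial (Fin 2) K} {br : A →ₗ[K] A →ₗ[K] A} {x y : A}
    (h : Std sy br x y) (u : A) :
    u = ∑ e ∈ (sy u).support, coeff e (sy u) • (x ^ (e 0) * y ^ (e 1)) := by
  apply sy.injective
  rw [map_sum]
  conv_lhs => rw [(sy u).as_sum]
  refine Finset.sum_congr rfl fun e _ => ?_
  rw [map_smul, h.symb, monomial_two]

theorem sub_holds : SUB := by
  classical
  intro K A _ _ _ _ sy br x y h w hw Φ d hx hy m u hu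
  have h0 : (1 : A) ∈ FilS sy w 0 ∧ topS sy w 0 (1 : A) = 1 := by
    refine ⟨one_mem h.sys 0, ?_⟩
    unfold topS
    rw [h.sys.one]
    exact (isWeightedHomogeneous_one K w).weightedHomogeneousComponent_same
  have hpow : ∀ i j : ℕ, Φ x ^ i * Φ y ^ j ∈ FilS sy w (i * d 0 + j * d 1) ∧
      topS sy w (i * d 0 + j * d 1) (Φ x ^ i * Φ y ^ j) =
        topS sy w (d 0) (Φ x) ^ i * topS sy w (d 1) (Φ y) ^ j := by
    intro i j
    have h1 := pow_mul_facts h.sys hw hy h0.1 j
    have h2 := pow_mul_facts h.sys hw hx h1.1 i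
    have e1 : d 0 * i + (d 1 * j + 0) = i * d 0 + j * d 1 := by ring
    rw [e1, mul_one] at h2
    refine ⟨h2.1, ?_⟩
    rw [h2.2]
    have h3 := h1.2
    rw [mul_one, h0.2, mul_one] at h3
    rw [h3]
  have hle : ∀ e ∈ (sy u).support, e 0 * d 0 + e 1 * d 1 ≤ m := (mem_FilS sy d m u).1 hu
  have hΦ : Φ u = ∑ e ∈ (sy u).support, coeff e (sy u) • (Φ x ^ (e 0) * Φ y ^ (e 1)) := by
    conv_lhs => rw [sub_expand h u]
    rw [map_sum]
    refine Finset.sum_congr rfl fun e _ => ?_
    rw [map_smul, map_mul, map_pow, map_pow]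
  refine ⟨?_, ?_⟩
  · rw [hΦ]
    refine Submodule.sum_mem _ fun e he => Submodule.smul_mem _ _ ?_
    exact FilS_mono sy w (hle e he) (hpow (e 0) (e 1)).1
  · rw [hΦ, top_sum]
    have hR : aeval ![topS sy w (d 0) (Φ x), topS sy w (d 1) (Φ y)] (topS sy d m u) =
        ∑ e ∈ (sy u).support, if e 0 * d 0 + e 1 * d 1 = m then
          coeff e (sy u) • (topS sy w (d 0) (Φ x) ^ (e 0) * topS sy w (d 1) (Φ y) ^ (e 1))
          else 0 := by
      have hT : topS sy d m u = ∑ e ∈ (sy u).support with Finsupp.weight d e = m,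
          monomial e (coeff e (sy u)) := by
        unfold topS
        rw [weightedHomogeneousComponent_apply]
      generalize topS sy w (d 0) (Φ x) = P
      generalize topS sy w (d 1) (Φ y) = R
      rw [hT, map_sum, Finset.sum_filter]
      refine Finset.sum_congr rfl fun e _ => ?_
      rw [weight_eq]
      split_ifs
      · rw [monomial_two, map_smul, map_mul, map_pow, map_pow, aeval_X, aeval_X]
        rfl
      · rfl
    rw [hR]
    refine Finset.sum_congr rfl fun e he => ?_
    rw [top_smul]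
    split_ifs with hm
    · rw [← hm, (hpow (e 0) (e 1)).2]
    · have hlt : e 0 * d 0 + e 1 * d 1 < m := lt_of_le_of_ne (hle e he) hm
      rw [top_eq_zero (hpow (e 0) (e 1)).1 hlt, smul_zero]

end Pool.Agent.H193R5.EG
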